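import Mathlib
set_option autoImplicit false
namespace Pool.Agent.Helper190.EdgeLin

/-- A coset diagram over a group `L`: nodes carry subgroups, links carry elements. The node `t` stands
for the set of left cosets of `B t`, the link `l` for the map `g (B (src l)) ↦ g (a l) (B (tgt l))`. -/
structure Diag (L : Type) [Group L] where
  T : Type
  Λ : Type
  fT : Fintype T
  fΛ : Fintype Λ
  B : T → Subgroup L
  src : Λ → T
  tgt : Λ → T
  a : Λ → L
  compat : ∀ (l : Λ) (b : L), b ∈ B (src l) → (a l)⁻¹ * b * a l ∈ B (tgt l)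
  ne : ∀ l, src l ≠ tgt l
  hub : T

attribute [instance] Diag.fT Diag.fΛ

/-- A morphism from the diagram of sets to the disjoint union of `I` copies of it, in relational form:
`R t g i h` says that the coset `g (B t)` is mapped to the coset `h (B t)` in the copy `i`. -/
structure Mor {L : Type} [Group L] (D : Diag L) (I : Type) where
  R : D.T → L → I → L → Prop
  total : ∀ t g, ∃ i h, R t g i h
  uniq : ∀ t g i h i' h', R t g i h → R t g i' h' → i = i' ∧ h⁻¹ * h' ∈ D.B t
  right : ∀ t g i h b, b ∈ D.B t → R t g i h → R t g i (h * b)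
  left : ∀ t g i h b, b ∈ D.B t → R t g i h → R t (g * b) i h
  comm : ∀ l g i h, R (D.src l) g i h → R (D.tgt l) (g * D.a l) i (h * D.a l)

/-- if the hub at `g` is moved to `k` in the copy `i`, then everything at `g m`, `m ∈ M`, is moved
accordingly -/
def Piece {L : Type} [Group L] (D : Diag L) (M : Subgroup L) : Prop :=
  ∀ (I : Type) (R : Mor D I) (g : L) (i : I) (k : L), R.R D.hub g i k →
    ∀ m ∈ M, ∀ t, R.R t (g * m) i (k * m)

/-- the cost of a diagram -/
noncomputable def cost {L : Type} [Group L] (D : Diag L) : ℕ :=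
  ∑ t, (D.B t).index + ∑ l, (D.B (D.src l)).index

/-! ### Induction from a subgroup (injective homomorphism) -/

section Ind
variable {L G : Type} [Group L] [Group G]

def Ind (f : L →* G) (D : Diag L) : Diag G where
  T := D.T
  Λ := D.Λ
  fT := D.fT
  fΛ := D.fΛ
  B := fun t => (D.B t).map f
  src := D.src
  tgt := D.tgt
  a := fun l => f (D.a l)
  compat := by
    rintro l b ⟨b', hb', rfl⟩
    exact ⟨(D.a l)⁻¹ * b' * D.a l, D.compat l b' hb', by simp⟩
  ne := D.ne
  hub := D.hub

theorem Ind_piece (f : L →* G) (hf : Function.Injective f) (D : Diag L) (hD : Piece D ⊤) :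
    Piece (Ind f D) f.range := by
  classical
  intro I R g i k hR m hm t
  obtain ⟨m, rfl⟩ := hm
  -- coset representatives
  let s : G ⧸ f.range → G := Quotient.out
  have hs : ∀ c, (QuotientGroup.mk (s c) : G ⧸ f.range) = c := fun c => Quotient.out_eq c
  let R' : Mor D (I × (G ⧸ f.range)) :=
    { R := fun t l ic h => R.R t (g * f l) ic.1 (s ic.2 * f h)
      total := by
        intro t l
        obtain ⟨i', k', h'⟩ := R.total t (g * f l)
        have h1 : (s (QuotientGroup.mk k'))⁻¹ * k' ∈ f.range := by
          rw [← QuotientGroup.eq]; exact hs _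
        obtain ⟨h, hh⟩ := h1
        refine ⟨(i', QuotientGroup.mk k'), h, ?_⟩
        show R.R t (g * f l) i' (s (QuotientGroup.mk k') * f h)
        rw [hh, mul_inv_cancel_left]
        exact h'
      uniq := by
        rintro t l ⟨i1, c1⟩ h1 ⟨i2, c2⟩ h2 H1 H2
        obtain ⟨e1, e2⟩ := R.uniq _ _ _ _ _ _ H1 H2
        obtain ⟨b, hb, hb2⟩ := e2
        have h3 : c1 = c2 := by
          rw [← hs c1, ← hs c2, QuotientGroup.eq]
          refine ⟨h1 * b * h2⁻¹, ?_⟩
          simp only at hb2
          rw [map_mul, map_mul, map_inv, hb2]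
          group
        subst h3
        refine ⟨by rw [show i1 = i2 from e1], ?_⟩
        have h4 : b = h1⁻¹ * h2 := by
          apply hf
          rw [hb2, map_mul, map_inv]
          group
        rw [← h4]; exact hb
      right := by
        rintro t l ⟨i1, c1⟩ h b hb H
        have := R.right t (g * f l) i1 (s c1 * f h) (f b) ⟨b, hb, rfl⟩ H
        show R.R t (g * f l) i1 (s c1 * f (h * b))
        rw [map_mul, ← mul_assoc]; exact this
      left := by
        rintro t l ⟨i1, c1⟩ h b hb H
        have := R.left t (g * f l) i1 (s c1 * f h) (f b) ⟨b, hb, rfl⟩ H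
        show R.R t (g * f (l * b)) i1 (s c1 * f h)
        rw [map_mul, ← mul_assoc]; exact this
      comm := by
        rintro l x ⟨i1, c1⟩ h H
        have := R.comm l (g * f x) i1 (s c1 * f h) H
        show R.R (D.tgt l) (g * f (x * D.a l)) i1 (s c1 * f (h * D.a l))
        rw [map_mul, map_mul, ← mul_assoc, ← mul_assoc]; exact this }
  have h1 : (s (QuotientGroup.mk k))⁻¹ * k ∈ f.range := by
    rw [← QuotientGroup.eq]; exact hs _
  obtain ⟨h, hh⟩ := h1
  have hk : k = s (QuotientGroup.mk k) * f h := by rw [hh, mul_inv_cancel_left]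
  have h2 : R'.R D.hub 1 (i, QuotientGroup.mk k) h := by
    show R.R D.hub (g * f 1) i (s (QuotientGroup.mk k) * f h)
    rw [map_one, mul_one, ← hk]; exact hR
  have h3 := hD _ R' 1 (i, QuotientGroup.mk k) h h2 m (Subgroup.mem_top m) t
  have h4 : R.R t (g * f (1 * m)) i (s (QuotientGroup.mk k) * f (h * m)) := h3
  rw [one_mul, map_mul, ← mul_assoc, ← hk] at h4
  exact h4

theorem Ind_cost (f : L →* G) (hf : Function.Injective f) (D : Diag L) :
    cost (Ind f D) = cost D * f.range.index := by
  have h : ∀ B : Subgroup L, (B.map f).index = B.index * f.range.index := by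
    intro B
    rw [Subgroup.index_map, (MonoidHom.ker_eq_bot_iff f).mpr hf, sup_bot_eq]
  unfold cost
  show ∑ t, ((D.B t).map f).index + ∑ l, ((D.B (D.src l)).map f).index = _
  simp only [h]
  rw [← Finset.sum_mul, ← Finset.sum_mul, add_mul]

end Ind

/-! ### Inflation along a surjective homomorphism -/

section Inf
variable {L Q : Type} [Group L] [Group Q]

noncomputable def Infl (f : L →* Q) (hf : Function.Surjective f) (D : Diag Q) : Diag L where
  T := D.T
  Λ := D.Λ
  fT := D.fT
  fΛ := D.fΛ
  B := fun t => (D.B t).comap f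
  src := D.src
  tgt := D.tgt
  a := fun l => Function.surjInv hf (D.a l)
  compat := by
    intro l b hb
    rw [Subgroup.mem_comap, map_mul, map_mul, map_inv, Function.surjInv_eq hf]
    exact D.compat l _ hb
  ne := D.ne
  hub := D.hub

theorem Infl_piece (f : L →* Q) (hf : Function.Surjective f) (D : Diag Q) (hD : Piece D ⊤) :
    Piece (Infl f hf D) ⊤ := by
  intro I R g i k hR m _ t
  have hker : ∀ t (n : L), f n = 1 → n ∈ (Infl f hf D).B t := by
    intro t n hn
    show n ∈ (D.B t).comap f
    rw [Subgroup.mem_comap, hn]; exact one_mem _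
  have hfix : ∀ t g g' i k k', f g = f g' → f k = f k' → R.R t g i k → R.R t g' i k' := by
    intro t g g' i k k' h1 h2 H
    have e1 : g' = g * (g⁻¹ * g') := by group
    have e2 : k' = k * (k⁻¹ * k') := by group
    rw [e1, e2]
    apply R.left _ _ _ _ _ (hker t _ _)
    · apply R.right _ _ _ _ _ (hker t _ _) H
      rw [map_mul, map_inv, h2, inv_mul_cancel]
    · rw [map_mul, map_inv, h1, inv_mul_cancel]
  let R' : Mor D I :=
    { R := fun t x i y => ∃ g k, f g = x ∧ f k = y ∧ R.R t g i k
      total := by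
        intro t x
        obtain ⟨g, rfl⟩ := hf x
        obtain ⟨i, k, h⟩ := R.total t g
        exact ⟨i, f k, g, k, rfl, rfl, h⟩
      uniq := by
        rintro t x i y i' y' ⟨g, k, rfl, rfl, h⟩ ⟨g', k', e1, rfl, h'⟩
        have := R.uniq _ _ _ _ _ _ h (hfix t g' g i' k' k' e1 rfl h')
        refine ⟨this.1, ?_⟩
        have h2 : f (k⁻¹ * k') ∈ D.B t := this.2
        rw [map_mul, map_inv] at h2; exact h2
      right := by
        rintro t x i y b hb ⟨g, k, rfl, rfl, h⟩
        obtain ⟨b, rfl⟩ := hf b
        exact ⟨g, k * b, rfl, by rw [map_mul], R.right _ _ _ _ _ hb h⟩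
      left := by
        rintro t x i y b hb ⟨g, k, rfl, rfl, h⟩
        obtain ⟨b, rfl⟩ := hf b
        exact ⟨g * b, k, by rw [map_mul], rfl, R.left _ _ _ _ _ hb h⟩
      comm := by
        rintro l x i y ⟨g, k, rfl, rfl, h⟩
        refine ⟨g * Function.surjInv hf (D.a l), k * Function.surjInv hf (D.a l), ?_, ?_,
          R.comm l g i k h⟩
        · rw [map_mul, Function.surjInv_eq hf]
        · rw [map_mul, Function.surjInv_eq hf] }
  obtain ⟨g1, k1, e1, e2, h⟩ := hD I R' (f g) i (f k) ⟨g, k, rfl, rfl, hR⟩ (f m) (Subgroup.mem_top _) t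
  exact hfix t g1 (g * m) i k1 (k * m) (by rw [e1, map_mul]) (by rw [e2, map_mul]) h

theorem Infl_cost (f : L →* Q) (hf : Function.Surjective f) (D : Diag Q) :
    cost (Infl f hf D) = cost D := by
  have h : ∀ B : Subgroup Q, (B.comap f).index = B.index :=
    fun B => Subgroup.index_comap_of_surjective B hf
  unfold cost
  show ∑ t, ((D.B t).comap f).index + ∑ l, ((D.B (D.src l)).comap f).index = _
  simp only [h]

end Inf

/-! ### Amalgamation of pieces along a new hub -/

section Amal
variable {L : Type} [Group L] {J : Type} [Fintype J]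

def Amal (D : J → Diag L) : Diag L where
  T := Option (Σ j, (D j).T)
  Λ := J ⊕ (Σ j, (D j).Λ)
  fT := inferInstance
  fΛ := inferInstance
  B := fun t => match t with
    | none => ⊥
    | some x => (D x.1).B x.2
  src := fun l => match l with
    | Sum.inl _ => none
    | Sum.inr x => some ⟨x.1, (D x.1).src x.2⟩
  tgt := fun l => match l with
    | Sum.inl j => some ⟨j, (D j).hub⟩
    | Sum.inr x => some ⟨x.1, (D x.1).tgt x.2⟩
  a := fun l => match l with
    | Sum.inl _ => 1
    | Sum.inr x => (D x.1).a x.2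
  compat := by
    rintro (j | ⟨j, x⟩) b hb
    · have : b = 1 := by simpa using hb
      subst this; simp only [inv_one, mul_one]; exact one_mem _
    · exact (D j).compat x b hb
  ne := by
    rintro (j | ⟨j, x⟩)
    · simp
    · intro h
      simp only [Option.some.injEq, Sigma.mk.injEq, heq_eq_eq, true_and] at h
      exact (D j).ne x h
  hub := none

/-- restriction of a morphism of the amalgam to a piece -/
def Mor.restr {D : J → Diag L} {I : Type} (R : Mor (Amal D) I) (j : J) : Mor (D j) I where
  R := fun t => R.R (some ⟨j, t⟩)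
  total := fun t g => R.total (some ⟨j, t⟩) g
  uniq := fun t => R.uniq (some ⟨j, t⟩)
  right := fun t => R.right (some ⟨j, t⟩)
  left := fun t => R.left (some ⟨j, t⟩)
  comm := fun l g i h H => R.comm (Sum.inr ⟨j, l⟩) g i h H

theorem Mor.link {D : J → Diag L} {I : Type} (R : Mor (Amal D) I) (j : J) (g : L) (i : I) (k : L)
    (h : R.R none g i k) : (R.restr j).R (D j).hub g i k := by
  have := R.comm (Sum.inl j) g i k h
  have h2 : R.R (some ⟨j, (D j).hub⟩) (g * 1) i (k * 1) := this
  rw [mul_one, mul_one] at h2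
  exact h2

/-- it is enough to control the hub -/
theorem Amal_piece_of_hub (D : J → Diag L) (hD : ∀ j, Piece (D j) ⊥)
    (h : ∀ (I : Type) (R : Mor (Amal D) I) (g : L) (i : I) (k : L), R.R none g i k →
      ∀ m, R.R none (g * m) i (k * m)) : Piece (Amal D) ⊤ := by
  intro I R g i k hR m _ t
  have h1 := h I R g i k hR m
  rcases t with _ | ⟨j, t⟩
  · exact h1
  · have h2 := hD j I (R.restr j) _ i _ (R.link j _ _ _ h1) 1 (one_mem _) t
    rw [mul_one, mul_one] at h2
    exact h2

theorem Piece.mono {D : Diag L} {M M' : Subgroup L} (h : Piece D M) (hM : M' ≤ M) : Piece D M' :=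
  fun I R g i k hR m hm t => h I R g i k hR m (hM hm) t

/-- amalgam of pieces with trivial hub subgroups which together generate -/
theorem Amal_piece (D : J → Diag L) (M : J → Subgroup L) (hB : ∀ j, (D j).B (D j).hub = ⊥)
    (hD : ∀ j, Piece (D j) (M j)) (hM : ⨆ j, M j = ⊤) : Piece (Amal D) ⊤ := by
  refine Amal_piece_of_hub D (fun j => (hD j).mono bot_le) ?_
  intro I R g i k hR
  -- the set of good m
  have key : ∀ j, ∀ m ∈ M j, ∀ x, R.R none (g * x) i (k * x) → R.R none (g * (x * m)) i (k * (x * m)) := by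
    intro j m hm x hx
    have h1 := hD j I (R.restr j) _ i _ (R.link j _ _ _ hx) m hm (D j).hub
    obtain ⟨i', k', h2⟩ := R.total none (g * x * m)
    have h3 := R.link j _ _ _ h2
    obtain ⟨e1, e2⟩ := (R.restr j).uniq _ _ _ _ _ _ h1 h3
    rw [hB j, Subgroup.mem_bot, inv_mul_eq_one] at e2
    rw [← e1, ← e2, mul_assoc, mul_assoc] at h2
    exact h2
  intro m
  have hm : m ∈ ⨆ j, M j := by rw [hM]; exact Subgroup.mem_top m
  have : ∀ m ∈ ⨆ j, M j, ∀ x, R.R none (g * x) i (k * x) → R.R none (g * (x * m)) i (k * (x * m)) := by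
    intro m hm
    refine Subgroup.iSup_induction M (C := fun m => ∀ x, R.R none (g * x) i (k * x) →
      R.R none (g * (x * m)) i (k * (x * m))) hm ?_ ?_ ?_
    · intro j m hm x hx; exact key j m hm x hx
    · intro x hx; rw [mul_one]; exact hx
    · intro m1 m2 h1 h2 x hx
      have := h2 (x * m1) (h1 x hx)
      rw [← mul_assoc x]; exact this
  have h := this m hm 1 (by rw [mul_one, mul_one]; exact hR)
  rw [one_mul] at h
  exact h

theorem Amal_cost [Finite L] (D : J → Diag L) :
    cost (Amal D) = Nat.card L * (1 + Fintype.card J) + ∑ j, cost (D j) := by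
  unfold cost
  show (∑ t : Option (Σ j, (D j).T), ((Amal D).B t).index) +
    ∑ l : J ⊕ (Σ j, (D j).Λ), ((Amal D).B ((Amal D).src l)).index = _
  rw [Fintype.sum_option, Fintype.sum_sum_type, Fintype.sum_sigma, Fintype.sum_sigma]
  have h1 : ((Amal D).B none).index = Nat.card L := by
    show (⊥ : Subgroup L).index = _
    exact Subgroup.index_bot
  have h2 : ∀ j : J, ((Amal D).B ((Amal D).src (Sum.inl j))).index = Nat.card L := fun j => h1
  rw [h1]
  simp only [h2, Finset.sum_const, Finset.card_univ, smul_eq_mul]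
  have h3 : ∀ j (t : (D j).T), ((Amal D).B (some ⟨j, t⟩)).index = ((D j).B t).index := fun j t => rfl
  have h4 : ∀ j (l : (D j).Λ), ((Amal D).B ((Amal D).src (Sum.inr ⟨j, l⟩))).index =
    ((D j).B ((D j).src l)).index := fun j t => rfl
  simp only [h3, h4]
  rw [Finset.sum_add_distrib]
  ring

end Amal

end Pool.Agent.Helper190.EdgeLin
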