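import Pool.Agent.Helper190.EdgeLin.Diag
set_option autoImplicit false
namespace Pool.Agent.Helper190.EdgeLin

inductive N4 | m1 | j1 | m2 | j2
deriving DecidableEq

inductive L7 | a1 | b1 | b2 | b3 | c1 | c2 | c3
deriving DecidableEq

instance : Fintype N4 := ⟨{N4.m1, N4.j1, N4.m2, N4.j2}, by intro x; cases x <;> simp⟩

instance : Fintype L7 := ⟨{L7.a1, L7.b1, L7.b2, L7.b3, L7.c1, L7.c2, L7.c3}, by intro x; cases x <;> simp⟩

section
variable {P : Type} [Group P] {X : Type} [Fintype X] (x : X → P)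
  (B : Fin 3 → Subgroup P) (M1 M2 : X → Fin 3 → Subgroup P)

abbrev ET (X : Type) := Unit ⊕ (Fin 3 ⊕ (X × Fin 3 × N4))
abbrev EL (X : Type) := Fin 3 ⊕ (X × Fin 3 × L7)

def engB : ET X → Subgroup P
  | Sum.inl _ => ⊥
  | Sum.inr (Sum.inl j) => B j
  | Sum.inr (Sum.inr (y, i, N4.m1)) => M1 y i
  | Sum.inr (Sum.inr (y, i, N4.j1)) => M1 y i ⊓ B 1
  | Sum.inr (Sum.inr (y, i, N4.m2)) => M2 y i
  | Sum.inr (Sum.inr (y, i, N4.j2)) => M2 y i ⊓ B 2

def engSrc : EL X → ET X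
  | Sum.inl _ => Sum.inl ()
  | Sum.inr (_, _, L7.a1) => Sum.inr (Sum.inl 0)
  | Sum.inr (y, i, L7.b1) => Sum.inr (Sum.inr (y, i, N4.j1))
  | Sum.inr (y, i, L7.b2) => Sum.inr (Sum.inr (y, i, N4.j1))
  | Sum.inr (y, i, L7.b3) => Sum.inr (Sum.inr (y, i, N4.j1))
  | Sum.inr (y, i, L7.c1) => Sum.inr (Sum.inr (y, i, N4.j2))
  | Sum.inr (y, i, L7.c2) => Sum.inr (Sum.inr (y, i, N4.j2))
  | Sum.inr (y, i, L7.c3) => Sum.inr (Sum.inr (y, i, N4.j2))

def engTgt : EL X → ET X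
  | Sum.inl j => Sum.inr (Sum.inl j)
  | Sum.inr (y, i, L7.a1) => Sum.inr (Sum.inr (y, i, N4.m1))
  | Sum.inr (y, i, L7.b1) => Sum.inr (Sum.inr (y, i, N4.m1))
  | Sum.inr (_, _, L7.b2) => Sum.inr (Sum.inl 1)
  | Sum.inr (y, i, L7.b3) => Sum.inr (Sum.inr (y, i, N4.m2))
  | Sum.inr (y, i, L7.c1) => Sum.inr (Sum.inr (y, i, N4.m2))
  | Sum.inr (_, _, L7.c2) => Sum.inr (Sum.inl 2)
  | Sum.inr (_, i, L7.c3) => Sum.inr (Sum.inl i)

def engA : EL X → P
  | Sum.inr (y, _, L7.c3) => x y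
  | _ => 1

variable (h0 : ∀ y i, B 0 ≤ M1 y i) (h1 : ∀ y i, M1 y i ⊓ B 1 ≤ M2 y i)
  (h2 : ∀ y i, ∀ b ∈ M2 y i ⊓ B 2, (x y)⁻¹ * b * x y ∈ B i)

def Eng : Diag P where
  T := ET X
  Λ := EL X
  fT := inferInstance
  fΛ := inferInstance
  B := engB B M1 M2
  src := engSrc
  tgt := engTgt
  a := engA x
  compat := by
    rintro (j | ⟨y, i, (_ | _ | _ | _ | _ | _ | _)⟩) b hb
    · have : b = 1 := by simpa [engSrc, engB] using hb
      subst this; simp only [engA, inv_one, mul_one]; exact one_mem _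
    · simp only [engA, inv_one, mul_one, one_mul]; exact h0 y i hb
    · simp only [engA, inv_one, mul_one, one_mul]; exact hb.1
    · simp only [engA, inv_one, mul_one, one_mul]; exact hb.2
    · simp only [engA, inv_one, mul_one, one_mul]; exact h1 y i hb
    · simp only [engA, inv_one, mul_one, one_mul]; exact hb.1
    · simp only [engA, inv_one, mul_one, one_mul]; exact hb.2
    · exact h2 y i b hb
  ne := by
    rintro (j | ⟨y, i, (_ | _ | _ | _ | _ | _ | _)⟩) <;> simp [engSrc, engTgt]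
  hub := Sum.inl ()

theorem Eng_piece (hbot : B 0 ⊓ B 1 ⊓ B 2 = ⊥) (hx : Subgroup.closure (Set.range x) = ⊤)
    [Finite P] : Piece (Eng x B M1 M2 h0 h1 h2) ⊤ := by
  intro I R g i k hR
  -- everything at `g` is determined
  have A0 : ∀ g k, R.R (Sum.inl ()) g i k → ∀ j, R.R (Sum.inr (Sum.inl j)) g i k := by
    intro g k h j
    have := R.comm (Sum.inl j) g i k h
    have h' : R.R (Sum.inr (Sum.inl j)) (g * 1) i (k * 1) := this
    rwa [mul_one, mul_one] at h'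
  have Am1 : ∀ g k, R.R (Sum.inl ()) g i k → ∀ y j, R.R (Sum.inr (Sum.inr (y, j, N4.m1))) g i k := by
    intro g k h y j
    have := R.comm (Sum.inr (y, j, L7.a1)) g i k (A0 g k h 0)
    have h' : R.R (Sum.inr (Sum.inr (y, j, N4.m1))) (g * 1) i (k * 1) := this
    rwa [mul_one, mul_one] at h'
  have Aj1 : ∀ g k, R.R (Sum.inl ()) g i k → ∀ y j, R.R (Sum.inr (Sum.inr (y, j, N4.j1))) g i k := by
    intro g k h y j
    obtain ⟨i', k', h'⟩ := R.total (Sum.inr (Sum.inr (y, j, N4.j1))) g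
    have e1 : R.R (Sum.inr (Sum.inr (y, j, N4.m1))) (g * 1) i' (k' * 1) :=
      R.comm (Sum.inr (y, j, L7.b1)) g i' k' h'
    have e2 : R.R (Sum.inr (Sum.inl 1)) (g * 1) i' (k' * 1) :=
      R.comm (Sum.inr (y, j, L7.b2)) g i' k' h'
    rw [mul_one, mul_one] at e1 e2
    have f1 := R.uniq _ _ _ _ _ _ e1 (Am1 g k h y j)
    have f2 := R.uniq _ _ _ _ _ _ e2 (A0 g k h 1)
    have f3 : k'⁻¹ * k ∈ engB B M1 M2 (Sum.inr (Sum.inr (y, j, N4.j1))) := ⟨f1.2, f2.2⟩
    have := R.right _ _ _ _ _ f3 h'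
    rwa [mul_inv_cancel_left, f1.1] at this
  have Am2 : ∀ g k, R.R (Sum.inl ()) g i k → ∀ y j, R.R (Sum.inr (Sum.inr (y, j, N4.m2))) g i k := by
    intro g k h y j
    have := R.comm (Sum.inr (y, j, L7.b3)) g i k (Aj1 g k h y j)
    have h' : R.R (Sum.inr (Sum.inr (y, j, N4.m2))) (g * 1) i (k * 1) := this
    rwa [mul_one, mul_one] at h'
  have Aj2 : ∀ g k, R.R (Sum.inl ()) g i k → ∀ y j, R.R (Sum.inr (Sum.inr (y, j, N4.j2))) g i k := by
    intro g k h y j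
    obtain ⟨i', k', h'⟩ := R.total (Sum.inr (Sum.inr (y, j, N4.j2))) g
    have e1 : R.R (Sum.inr (Sum.inr (y, j, N4.m2))) (g * 1) i' (k' * 1) :=
      R.comm (Sum.inr (y, j, L7.c1)) g i' k' h'
    have e2 : R.R (Sum.inr (Sum.inl 2)) (g * 1) i' (k' * 1) :=
      R.comm (Sum.inr (y, j, L7.c2)) g i' k' h'
    rw [mul_one, mul_one] at e1 e2
    have f1 := R.uniq _ _ _ _ _ _ e1 (Am2 g k h y j)
    have f2 := R.uniq _ _ _ _ _ _ e2 (A0 g k h 2)
    have f3 : k'⁻¹ * k ∈ engB B M1 M2 (Sum.inr (Sum.inr (y, j, N4.j2))) := ⟨f1.2, f2.2⟩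
    have := R.right _ _ _ _ _ f3 h'
    rwa [mul_inv_cancel_left, f1.1] at this
  have Ax : ∀ g k, R.R (Sum.inl ()) g i k → ∀ y, R.R (Sum.inl ()) (g * x y) i (k * x y) := by
    intro g k h y
    have e : ∀ j, R.R (Sum.inr (Sum.inl j)) (g * x y) i (k * x y) := fun j =>
      R.comm (Sum.inr (y, j, L7.c3)) g i k (Aj2 g k h y j)
    obtain ⟨i', k', h'⟩ := R.total (Sum.inl ()) (g * x y)
    have e' : ∀ j, R.R (Sum.inr (Sum.inl j)) (g * x y) i' k' := by
      intro j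
      have := R.comm (Sum.inl j) (g * x y) i' k' h'
      have h' : R.R (Sum.inr (Sum.inl j)) (g * x y * 1) i' (k' * 1) := this
      rwa [mul_one, mul_one] at h'
    have f := fun j => R.uniq _ _ _ _ _ _ (e j) (e' j)
    have f3 : (k * x y)⁻¹ * k' ∈ B 0 ⊓ B 1 ⊓ B 2 := ⟨⟨(f 0).2, (f 1).2⟩, (f 2).2⟩
    rw [hbot, Subgroup.mem_bot, inv_mul_eq_one] at f3
    rw [f3, (f 0).1]; exact h'
  have Am : ∀ m : P, R.R (Sum.inl ()) (g * m) i (k * m) := by
    intro m
    have hm : m ∈ Submonoid.closure (Set.range x) := by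
      rw [← Subgroup.closure_toSubmonoid_of_finite, hx]; exact Subgroup.mem_top m
    induction hm using Submonoid.closure_induction_right with
    | one => rw [mul_one, mul_one]; exact hR
    | mul_right z _ w hw hz =>
      obtain ⟨y, rfl⟩ := hw
      rw [← mul_assoc, ← mul_assoc]; exact Ax _ _ hz y
  intro m _ t
  have hm := Am m
  rcases t with _ | (j | ⟨y, j, (_ | _ | _ | _)⟩)
  · exact hm
  · exact A0 _ _ hm j
  · exact Am1 _ _ hm y j
  · exact Aj1 _ _ hm y j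
  · exact Am2 _ _ hm y j
  · exact Aj2 _ _ hm y j

theorem Eng_cost [Finite P] (S : ℕ) (hb : ∀ j, S ≤ Nat.card (B j))
    (hj1 : ∀ y i, S ≤ Nat.card (M1 y i ⊓ B 1 : Subgroup P))
    (hj2 : ∀ y i, S ≤ Nat.card (M2 y i ⊓ B 2 : Subgroup P)) :
    S * cost (Eng x B M1 M2 h0 h1 h2) ≤ Nat.card P * (4 * S + 3 + 33 * Fintype.card X) := by
  have key : ∀ H : Subgroup P, S ≤ Nat.card H → S * H.index ≤ Nat.card P := by
    intro H hH
    rw [← H.card_mul_index]
    exact Nat.mul_le_mul_right _ hH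
  have kb : ∀ j, S * (B j).index ≤ Nat.card P := fun j => key _ (hb j)
  have kj1 : ∀ y i, S * (M1 y i ⊓ B 1).index ≤ Nat.card P := fun y i => key _ (hj1 y i)
  have kj2 : ∀ y i, S * (M2 y i ⊓ B 2).index ≤ Nat.card P := fun y i => key _ (hj2 y i)
  have km1 : ∀ y i, S * (M1 y i).index ≤ Nat.card P := fun y i =>
    (Nat.mul_le_mul_left _ (Nat.le_of_dvd (Nat.pos_of_ne_zero Subgroup.index_ne_zero_of_finite)
      (Subgroup.index_dvd_of_le inf_le_left))).trans (kj1 y i)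
  have km2 : ∀ y i, S * (M2 y i).index ≤ Nat.card P := fun y i =>
    (Nat.mul_le_mul_left _ (Nat.le_of_dvd (Nat.pos_of_ne_zero Subgroup.index_ne_zero_of_finite)
      (Subgroup.index_dvd_of_le inf_le_left))).trans (kj2 y i)
  have k4 : ∀ (y : X) (i : Fin 3) (n : N4),
      S * (engB B M1 M2 (Sum.inr (Sum.inr (y, i, n)))).index ≤ Nat.card P := by
    intro y i n
    cases n
    · exact km1 y i
    · exact kj1 y i
    · exact km2 y i
    · exact kj2 y i
  have k7 : ∀ (y : X) (i : Fin 3) (n : L7),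
      S * (engB B M1 M2 (engSrc (Sum.inr (y, i, n)))).index ≤ Nat.card P := by
    intro y i n
    cases n
    · exact kb 0
    · exact kj1 y i
    · exact kj1 y i
    · exact kj1 y i
    · exact kj2 y i
    · exact kj2 y i
    · exact kj2 y i
  have hbt : ∀ u : Unit, (engB (X := X) B M1 M2 (Sum.inl u)).index = Nat.card P :=
    fun _ => Subgroup.index_bot
  have hbt2 : ∀ j : Fin 3, (engB (X := X) B M1 M2 (engSrc (Sum.inl j))).index = Nat.card P :=
    fun _ => Subgroup.index_bot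
  unfold cost
  show S * (∑ t : ET X, (engB B M1 M2 t).index + ∑ l : EL X, (engB B M1 M2 (engSrc l)).index) ≤ _
  rw [Fintype.sum_sum_type, Fintype.sum_sum_type, Fintype.sum_sum_type]
  have s1 : ∑ u : Unit, (engB (X := X) B M1 M2 (Sum.inl u)).index = Nat.card P := by simp [hbt]
  have s2 : ∑ j : Fin 3, (engB (X := X) B M1 M2 (engSrc (Sum.inl j))).index = 3 * Nat.card P := by
    simp [hbt2]
  have s3 : S * ∑ j : Fin 3, (engB (X := X) B M1 M2 (Sum.inr (Sum.inl j))).index ≤ 3 * Nat.card P := by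
    rw [Finset.mul_sum]
    refine (Finset.sum_le_card_nsmul _ _ (Nat.card P) fun j _ => kb j).trans ?_
    simp
  have s4 : S * ∑ z : X × Fin 3 × N4, (engB B M1 M2 (Sum.inr (Sum.inr z))).index ≤
      12 * Fintype.card X * Nat.card P := by
    rw [Finset.mul_sum]
    refine (Finset.sum_le_card_nsmul _ _ (Nat.card P) fun z _ => k4 z.1 z.2.1 z.2.2).trans ?_
    have : Fintype.card N4 = 4 := rfl
    rw [Finset.card_univ, Fintype.card_prod, Fintype.card_prod, this, Fintype.card_fin, smul_eq_mul]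
    apply le_of_eq; ring
  have s5 : S * ∑ z : X × Fin 3 × L7, (engB B M1 M2 (engSrc (Sum.inr z))).index ≤
      21 * Fintype.card X * Nat.card P := by
    rw [Finset.mul_sum]
    refine (Finset.sum_le_card_nsmul _ _ (Nat.card P) fun z _ => k7 z.1 z.2.1 z.2.2).trans ?_
    have : Fintype.card L7 = 7 := rfl
    rw [Finset.card_univ, Fintype.card_prod, Fintype.card_prod, this, Fintype.card_fin, smul_eq_mul]
    apply le_of_eq; ring
  rw [s1, s2]
  nlinarith [s3, s4, s5]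

end

end Pool.Agent.Helper190.EdgeLin
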