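import Pool.Agent.Helper190.EdgeLin.Diag
set_option autoImplicit false
namespace Pool.Agent.Helper190.EdgeLin

/-- the diagram with one node and no links -/
def One {L : Type} [Group L] (H : Subgroup L) : Diag L where
  T := Unit
  Λ := Empty
  fT := inferInstance
  fΛ := inferInstance
  B := fun _ => H
  src := fun l => l.elim
  tgt := fun l => l.elim
  a := fun l => l.elim
  compat := fun l => l.elim
  ne := fun l => l.elim
  hub := ()

theorem One_piece {L : Type} [Group L] (H : Subgroup L) : Piece (One H) H := by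
  intro I R g i k h m hm t
  exact R.left _ _ _ _ _ hm (R.right _ _ _ _ _ hm h)

theorem One_cost {L : Type} [Group L] (H : Subgroup L) : cost (One H) = H.index := by
  unfold cost
  show ∑ t : Unit, H.index + ∑ l : Empty, _ = _
  simp

/-- the extension step: a diagram which is rigid modulo `N`, a piece containing `P`, and a subgroup `H`
avoiding `N`, with `P ⊔ H = ⊤` -/
theorem Ext_piece {L : Type} [Group L] (N P H : Subgroup L) (DN DP : Diag L)
    (hN : DN.B DN.hub = N) (hDN : Piece DN ⊤)
    (hP : DP.B DP.hub = ⊥) (hDP : Piece DP P) (hNH : H ⊓ N = ⊥) (hPH : P ⊔ H = ⊤) :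
    Piece (Amal (fun j : Fin 3 => match j with | 0 => DN | 1 => DP | 2 => One H)) ⊤ := by
  set D : Fin 3 → Diag L := fun j => match j with | 0 => DN | 1 => DP | 2 => One H with hD
  refine Amal_piece_of_hub D ?_ ?_
  · intro j
    fin_cases j
    · exact hDN.mono bot_le
    · exact hDP.mono bot_le
    · exact (One_piece H).mono bot_le
  · intro I R g i k hR
    have key1 : ∀ m ∈ P, ∀ x, R.R none (g * x) i (k * x) →
        R.R none (g * (x * m)) i (k * (x * m)) := by
      intro m hm x hx
      have h1 := hDP I (R.restr 1) _ i _ (R.link 1 _ _ _ hx) m hm DP.hub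
      obtain ⟨i', k', h2⟩ := R.total none (g * x * m)
      have h3 := R.link 1 _ _ _ h2
      obtain ⟨e1, e2⟩ := (R.restr 1).uniq _ _ _ _ _ _ h1 h3
      have e3 : (k * x * m)⁻¹ * k' ∈ (⊥ : Subgroup L) := by rw [← hP]; exact e2
      rw [Subgroup.mem_bot, inv_mul_eq_one] at e3
      rw [← e1, ← e3, mul_assoc, mul_assoc] at h2
      exact h2
    have key2 : ∀ m ∈ H, ∀ x, R.R none (g * x) i (k * x) →
        R.R none (g * (x * m)) i (k * (x * m)) := by
      intro m hm x hx
      have h1 : (R.restr 2).R () (g * x) i (k * x) := R.link 2 _ _ _ hx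
      have h1' : (R.restr 2).R () (g * x * m) i (k * x) := (R.restr 2).left _ _ _ _ _ hm h1
      obtain ⟨i', k', h2⟩ := R.total none (g * x * m)
      have h3 : (R.restr 2).R () (g * x * m) i' k' := R.link 2 _ _ _ h2
      have h4 : (R.restr 0).R DN.hub (g * x * m) i' k' := R.link 0 _ _ _ h2
      have h5 := hDN I (R.restr 0) _ i _ (R.link 0 _ _ _ hR) (x * m) (Subgroup.mem_top _) DN.hub
      rw [← mul_assoc, ← mul_assoc] at h5
      obtain ⟨e1, e2⟩ := (R.restr 0).uniq _ _ _ _ _ _ h5 h4
      have e2' : (k * x * m)⁻¹ * k' ∈ N := by rw [← hN]; exact e2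
      obtain ⟨-, e3⟩ := (R.restr 2).uniq _ _ _ _ _ _ h1' h3
      have e3' : (k * x)⁻¹ * k' ∈ H := e3
      have e4 : (k * x * m)⁻¹ * k' ∈ H := by
        have : (k * x * m)⁻¹ * k' = m⁻¹ * ((k * x)⁻¹ * k') := by group
        rw [this]; exact mul_mem (inv_mem hm) e3'
      have e5 : (k * x * m)⁻¹ * k' ∈ (⊥ : Subgroup L) := by rw [← hNH]; exact ⟨e4, e2'⟩
      rw [Subgroup.mem_bot, inv_mul_eq_one] at e5
      rw [← e1, ← e5, mul_assoc, mul_assoc] at h2
      exact h2
    intro m
    have hm : m ∈ P ⊔ H := by rw [hPH]; exact Subgroup.mem_top m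
    rw [Subgroup.sup_eq_closure P H] at hm
    refine Subgroup.closure_induction_right (p := fun m _ => R.R none (g * m) i (k * m)) ?_ ?_ ?_ hm
    · rw [mul_one, mul_one]; exact hR
    · rintro x _ y (hy | hy) hx
      · exact key1 y hy x hx
      · exact key2 y hy x hx
    · rintro x _ y (hy | hy) hx
      · exact key1 y⁻¹ (inv_mem hy) x hx
      · exact key2 y⁻¹ (inv_mem hy) x hx

end Pool.Agent.Helper190.EdgeLin
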