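import Mathlib
set_option autoImplicit false
namespace Pool.Agent.Helper190.EdgeLin

/-- permutations preserving a colouring and a graph -/
def colAut {V : Type} {m : ℕ} (c : V → Fin m) (A : SimpleGraph V) : Subgroup (Equiv.Perm V) where
  carrier := {σ | (∀ v, c (σ v) = c v) ∧ ∀ u v, A.Adj (σ u) (σ v) ↔ A.Adj u v}
  one_mem' := by simp
  mul_mem' := by
    rintro σ τ ⟨h1, h2⟩ ⟨h3, h4⟩
    refine ⟨fun v => ?_, fun u v => ?_⟩
    · rw [Equiv.Perm.mul_apply, h1, h3]
    · rw [Equiv.Perm.mul_apply, Equiv.Perm.mul_apply, h2, h4]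
  inv_mem' := by
    rintro σ ⟨h1, h2⟩
    refine ⟨fun v => ?_, fun u v => ?_⟩
    · rw [← h1 (σ⁻¹ v)]; simp
    · rw [← h2]; simp

section gad

variable {V : Type} {m : ℕ} (c : V → Fin m) (A : SimpleGraph V)

/-- adjacency of the gadget -/
def gAdj : V ⊕ (Fin (m + 2) ⊕ Fin (m + 2)) → V ⊕ (Fin (m + 2) ⊕ Fin (m + 2)) → Prop
  | Sum.inl u, Sum.inl v => A.Adj u v
  | Sum.inl v, Sum.inr (Sum.inl i) => (i : ℕ) = c v ∨ (i : ℕ) = c v + 1
  | Sum.inr (Sum.inl i), Sum.inl v => (i : ℕ) = c v ∨ (i : ℕ) = c v + 1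
  | Sum.inr (Sum.inl i), Sum.inr (Sum.inl j) => (i : ℕ) + 1 = j ∨ (j : ℕ) + 1 = i
  | Sum.inr (Sum.inl i), Sum.inr (Sum.inr j) => i = j
  | Sum.inr (Sum.inr i), Sum.inr (Sum.inl j) => i = j
  | Sum.inl _, Sum.inr (Sum.inr _) => False
  | Sum.inr (Sum.inr _), Sum.inl _ => False
  | Sum.inr (Sum.inr _), Sum.inr (Sum.inr _) => False

theorem gAdj_symm : ∀ x y, gAdj c A x y → gAdj c A y x
  | Sum.inl _, Sum.inl _ => fun h => SimpleGraph.Adj.symm h
  | Sum.inl _, Sum.inr (Sum.inl _) => fun h => h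
  | Sum.inr (Sum.inl _), Sum.inl _ => fun h => h
  | Sum.inr (Sum.inl _), Sum.inr (Sum.inl _) => fun h => Or.symm h
  | Sum.inr (Sum.inl _), Sum.inr (Sum.inr _) => fun h => Eq.symm h
  | Sum.inr (Sum.inr _), Sum.inr (Sum.inl _) => fun h => Eq.symm h
  | Sum.inl _, Sum.inr (Sum.inr _) => fun h => h
  | Sum.inr (Sum.inr _), Sum.inl _ => fun h => h
  | Sum.inr (Sum.inr _), Sum.inr (Sum.inr _) => fun h => h

theorem gAdj_irr : ∀ x, ¬ gAdj c A x x
  | Sum.inl u => fun h => (A.irrefl : ¬ A.Adj u u) h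
  | Sum.inr (Sum.inl _) => fun h => by
    rcases h with h | h
    · omega
    · omega
  | Sum.inr (Sum.inr _) => fun h => h

/-- the gadget graph -/
def gX : SimpleGraph (V ⊕ (Fin (m + 2) ⊕ Fin (m + 2))) where
  Adj := gAdj c A
  symm := ⟨fun x y h => gAdj_symm c A x y h⟩
  loopless := ⟨fun x h => gAdj_irr c A x h⟩

theorem gX_adj (x y : V ⊕ (Fin (m + 2) ⊕ Fin (m + 2))) : (gX c A).Adj x y ↔ gAdj c A x y := Iff.rfl

theorem adj_vq (v : V) (i : Fin (m + 2)) (h : (i : ℕ) = c v ∨ (i : ℕ) = c v + 1) :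
    (gX c A).Adj (Sum.inl v) (Sum.inr (Sum.inl i)) := h

theorem adj_qv (v : V) (i : Fin (m + 2)) (h : (i : ℕ) = c v ∨ (i : ℕ) = c v + 1) :
    (gX c A).Adj (Sum.inr (Sum.inl i)) (Sum.inl v) := h

theorem adj_qq (i j : Fin (m + 2)) (h : (i : ℕ) + 1 = j ∨ (j : ℕ) + 1 = i) :
    (gX c A).Adj (Sum.inr (Sum.inl i)) (Sum.inr (Sum.inl j)) := h

theorem adj_ql (i : Fin (m + 2)) :
    (gX c A).Adj (Sum.inr (Sum.inl i)) (Sum.inr (Sum.inr i)) := (rfl : i = i)

theorem adj_lq (i : Fin (m + 2)) :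
    (gX c A).Adj (Sum.inr (Sum.inr i)) (Sum.inr (Sum.inl i)) := (rfl : i = i)

/-- at most one neighbour -/
def Leaf {W : Type} (X : SimpleGraph W) (x : W) : Prop := ∃ y, ∀ z, X.Adj x z → z = y

/-- at most one neighbour which is not a leaf -/
def Leaf2 {W : Type} (X : SimpleGraph W) (x : W) : Prop :=
  ∃ y, ∀ z, X.Adj x z → ¬ Leaf X z → z = y

theorem leaf_iso {W : Type} {X : SimpleGraph W} (φ : X ≃g X) (x : W) (h : Leaf X x) :
    Leaf X (φ x) := by
  obtain ⟨y, hy⟩ := h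
  refine ⟨φ y, fun z hz => ?_⟩
  obtain ⟨z', rfl⟩ := φ.surjective z
  rw [φ.map_adj_iff] at hz
  rw [hy z' hz]

theorem leaf_iso_iff {W : Type} {X : SimpleGraph W} (φ : X ≃g X) (x : W) :
    Leaf X (φ x) ↔ Leaf X x := by
  constructor
  · intro h
    have := leaf_iso φ.symm _ h
    rwa [RelIso.symm_apply_apply] at this
  · exact leaf_iso φ x

theorem leaf2_iso {W : Type} {X : SimpleGraph W} (φ : X ≃g X) (x : W) (h : Leaf2 X x) :
    Leaf2 X (φ x) := by
  obtain ⟨y, hy⟩ := h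
  refine ⟨φ y, fun z hz hl => ?_⟩
  obtain ⟨z', rfl⟩ := φ.surjective z
  rw [φ.map_adj_iff] at hz
  rw [leaf_iso_iff] at hl
  rw [hy z' hz hl]

theorem leaf_l (i : Fin (m + 2)) : Leaf (gX c A) (Sum.inr (Sum.inr i)) := by
  refine ⟨Sum.inr (Sum.inl i), fun z hz => ?_⟩
  rw [gX_adj] at hz
  rcases z with v | j | j
  · exact hz.elim
  · have : i = j := hz
    rw [this]
  · exact hz.elim

theorem not_leaf_v (v : V) : ¬ Leaf (gX c A) (Sum.inl v) := by
  rintro ⟨y, hy⟩
  have hv := (c v).2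
  have h1 := hy _ (adj_vq c A v ⟨c v, by omega⟩ (Or.inl rfl))
  have h2 := hy _ (adj_vq c A v ⟨c v + 1, by omega⟩ (Or.inr rfl))
  rw [← h2] at h1
  have h3 := Sum.inl.inj (Sum.inr.inj h1)
  rw [Fin.ext_iff] at h3
  simp only at h3
  omega

theorem not_leaf_q (i : Fin (m + 2)) : ¬ Leaf (gX c A) (Sum.inr (Sum.inl i)) := by
  rintro ⟨y, hy⟩
  have hi := i.2
  have h1 := hy _ (adj_ql c A i)
  rcases Nat.eq_zero_or_pos (i : ℕ) with h0 | h0
  · have h2 := hy _ (adj_qq c A i ⟨i + 1, by omega⟩ (Or.inl rfl))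
    rw [← h2] at h1
    exact absurd (Sum.inr.inj h1) (by simp)
  · have h2 := hy _ (adj_qq c A i ⟨i - 1, by omega⟩ (Or.inr (by
      show (i : ℕ) - 1 + 1 = i
      omega)))
    rw [← h2] at h1
    exact absurd (Sum.inr.inj h1) (by simp)

theorem leaf2_top (hm : 0 < m) : Leaf2 (gX c A) (Sum.inr (Sum.inl ⟨m + 1, by omega⟩)) := by
  refine ⟨Sum.inr (Sum.inl ⟨m, by omega⟩), fun z hz hl => ?_⟩
  rw [gX_adj] at hz
  rcases z with v | j | j
  · exfalso
    have hv := (c v).2
    rcases hz with h | h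
    · simp only at h
      omega
    · simp only at h
      omega
  · have hj := j.2
    have h1 : (j : ℕ) = m := by
      rcases hz with h | h
      · simp only at h
        omega
      · simp only at h
        omega
    congr 2
    exact Fin.ext h1
  · exact absurd (leaf_l c A j) hl

theorem not_leaf2 (hm : 0 < m) (hc : Function.Surjective c) (i : Fin (m + 2)) (hi : (i : ℕ) ≤ m) :
    ¬ Leaf2 (gX c A) (Sum.inr (Sum.inl i)) := by
  rintro ⟨y, hy⟩
  have h1 := hy _ (adj_qq c A i ⟨i + 1, by omega⟩ (Or.inl rfl)) (not_leaf_q c A _)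
  rcases Nat.eq_zero_or_pos (i : ℕ) with h0 | h0
  · obtain ⟨v, hv⟩ := hc ⟨0, hm⟩
    have h2 := hy _ (adj_qv c A v i (Or.inl (by rw [hv]; exact h0))) (not_leaf_v c A v)
    rw [← h2] at h1
    exact absurd h1 (by simp)
  · have h2 := hy _ (adj_qq c A i ⟨i - 1, by omega⟩ (Or.inr (by
      show (i : ℕ) - 1 + 1 = i
      omega))) (not_leaf_q c A _)
    rw [← h2] at h1
    have h3 := Sum.inl.inj (Sum.inr.inj h1)
    rw [Fin.ext_iff] at h3
    simp only at h3
    omega

theorem gX_fix (hm : 0 < m) (hc : Function.Surjective c) (φ : gX c A ≃g gX c A) :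
    (∀ i, φ (Sum.inr (Sum.inl i)) = Sum.inr (Sum.inl i)) ∧
      ∀ i, φ (Sum.inr (Sum.inr i)) = Sum.inr (Sum.inr i) := by
  have h1 : ∀ i, ∃ j, φ (Sum.inr (Sum.inr i)) = Sum.inr (Sum.inr j) := by
    intro i
    have h := leaf_iso φ _ (leaf_l c A i)
    obtain ⟨x, hx⟩ : ∃ x, x = φ (Sum.inr (Sum.inr i)) := ⟨_, rfl⟩
    rw [← hx] at h ⊢
    rcases x with v | j | j
    · exact absurd h (not_leaf_v c A v)
    · exact absurd h (not_leaf_q c A j)
    · exact ⟨j, rfl⟩
  choose p hp using h1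
  have h2 : ∀ i, φ (Sum.inr (Sum.inl i)) = Sum.inr (Sum.inl (p i)) := by
    intro i
    have h : (gX c A).Adj (φ (Sum.inr (Sum.inr i))) (φ (Sum.inr (Sum.inl i))) := by
      rw [φ.map_adj_iff]
      exact adj_lq c A i
    rw [hp] at h
    obtain ⟨x, hx⟩ : ∃ x, x = φ (Sum.inr (Sum.inl i)) := ⟨_, rfl⟩
    rw [← hx] at h ⊢
    rcases x with v | j | j
    · exact (show False from h).elim
    · have : p i = j := h
      rw [this]
    · exact (show False from h).elim
  have hinj : ∀ i j, p i = p j → i = j := by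
    intro i j hij
    have := hp i
    rw [hij, ← hp j] at this
    exact Sum.inr.inj (Sum.inr.inj (φ.injective this))
  have hadj : ∀ i j : Fin (m + 2), (i : ℕ) + 1 = j → ((p i : ℕ) + 1 = p j ∨ (p j : ℕ) + 1 = p i) := by
    intro i j hij
    have h : (gX c A).Adj (φ (Sum.inr (Sum.inl i))) (φ (Sum.inr (Sum.inl j))) := by
      rw [φ.map_adj_iff]
      exact adj_qq c A i j (Or.inl hij)
    rw [h2, h2] at h
    exact h
  have htop : p ⟨m + 1, by omega⟩ = ⟨m + 1, by omega⟩ := by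
    have h := leaf2_iso φ _ (leaf2_top c A hm)
    rw [h2] at h
    by_contra hne
    have h3 : ((p ⟨m + 1, by omega⟩ : Fin (m + 2)) : ℕ) ≤ m := by
      have h4 := (p ⟨m + 1, by omega⟩).2
      have h5 : ((p ⟨m + 1, by omega⟩ : Fin (m + 2)) : ℕ) ≠ m + 1 := fun h => hne (Fin.ext h)
      omega
    exact not_leaf2 c A hm hc _ h3 h
  have hall : ∀ k : ℕ, ∀ i : Fin (m + 2), (i : ℕ) + k = m + 1 → p i = i := by
    intro k
    induction k using Nat.strong_induction_on with
    | _ k ih =>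
      intro i hi
      rcases Nat.eq_zero_or_pos k with h0 | h0
      · have : i = ⟨m + 1, by omega⟩ := Fin.ext (by simp only; omega)
        rw [this, htop]
      · have hlt : (i : ℕ) + 1 < m + 2 := by omega
        have e1 := ih (k - 1) (by omega) ⟨i + 1, hlt⟩ (by simp only; omega)
        have e2 := hadj i ⟨i + 1, hlt⟩ rfl
        rw [e1] at e2
        simp only at e2
        rcases e2 with e2 | e2
        · exact Fin.ext (by omega)
        · exfalso
          have hpi := (p i).2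
          have e3 := ih (k - 2) (by omega) ⟨i + 2, by omega⟩ (by simp only; omega)
          have e4 : p i = p ⟨i + 2, by omega⟩ := by
            rw [e3]
            exact Fin.ext (by simp only; omega)
          have e5 := hinj _ _ e4
          rw [Fin.ext_iff] at e5
          simp only at e5
          omega
  have hid : ∀ i, p i = i := fun i => hall (m + 1 - i) i (by
    have := i.2
    omega)
  exact ⟨fun i => by rw [h2, hid], fun i => by rw [hp, hid]⟩

theorem gX_v (hm : 0 < m) (hc : Function.Surjective c) (φ : gX c A ≃g gX c A) (v : V) :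
    ∃ w, φ (Sum.inl v) = Sum.inl w := by
  obtain ⟨h1, h2⟩ := gX_fix c A hm hc φ
  obtain ⟨x, hx⟩ : ∃ x, x = φ (Sum.inl v) := ⟨_, rfl⟩
  rw [← hx]
  rcases x with w | j | j
  · exact ⟨w, rfl⟩
  · rw [← h1 j] at hx
    exact absurd (φ.injective hx) (by simp)
  · rw [← h2 j] at hx
    exact absurd (φ.injective hx) (by simp)

theorem gX_col (hm : 0 < m) (hc : Function.Surjective c) (φ : gX c A ≃g gX c A) (v w : V)
    (h : φ (Sum.inl v) = Sum.inl w) : c w = c v := by
  obtain ⟨h1, h2⟩ := gX_fix c A hm hc φ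
  have hv := (c v).2
  have e1 : (gX c A).Adj (φ (Sum.inl v)) (φ (Sum.inr (Sum.inl ⟨c v, by omega⟩))) := by
    rw [φ.map_adj_iff]
    exact adj_vq c A v _ (Or.inl rfl)
  have e2 : (gX c A).Adj (φ (Sum.inl v)) (φ (Sum.inr (Sum.inl ⟨c v + 1, by omega⟩))) := by
    rw [φ.map_adj_iff]
    exact adj_vq c A v _ (Or.inr rfl)
  rw [h1, h] at e1 e2
  have e1' : (c v : ℕ) = c w ∨ (c v : ℕ) = c w + 1 := e1
  have e2' : (c v : ℕ) + 1 = c w ∨ (c v : ℕ) + 1 = c w + 1 := e2
  apply Fin.ext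
  omega

/-- the automorphism of the gadget given by a colour preserving automorphism -/
def gHom : colAut c A →* (gX c A ≃g gX c A) where
  toFun σ := ⟨Equiv.sumCongr (σ : Equiv.Perm V) (Equiv.refl _), by
    intro x y
    rw [gX_adj, gX_adj]
    rcases x with u | i | i <;> rcases y with v | j | j
    · exact σ.2.2 u v
    · show ((j : ℕ) = c ((σ : Equiv.Perm V) u) ∨ (j : ℕ) = c ((σ : Equiv.Perm V) u) + 1) ↔ _
      rw [σ.2.1 u]
      exact Iff.rfl
    · exact Iff.rfl
    · show ((i : ℕ) = c ((σ : Equiv.Perm V) v) ∨ (i : ℕ) = c ((σ : Equiv.Perm V) v) + 1) ↔ _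
      rw [σ.2.1 v]
      exact Iff.rfl
    · exact Iff.rfl
    · exact Iff.rfl
    · exact Iff.rfl
    · exact Iff.rfl
    · exact Iff.rfl⟩
  map_one' := by
    ext x
    rcases x with u | i | i <;> rfl
  map_mul' := by
    intro σ τ
    ext x
    rcases x with u | i | i <;> rfl

theorem gHom_inl (σ : colAut c A) (v : V) :
    gHom c A σ (Sum.inl v) = Sum.inl ((σ : Equiv.Perm V) v) := rfl

theorem gHom_inr (σ : colAut c A) (x : Fin (m + 2) ⊕ Fin (m + 2)) :
    gHom c A σ (Sum.inr x) = Sum.inr x := rfl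

theorem gHom_bij (hm : 0 < m) (hc : Function.Surjective c) : Function.Bijective (gHom c A) := by
  constructor
  · intro σ τ h
    apply Subtype.ext
    apply Equiv.ext
    intro v
    have := congrArg (fun ψ : gX c A ≃g gX c A => ψ (Sum.inl v)) h
    simp only [gHom_inl] at this
    exact Sum.inl.inj this
  · intro φ
    choose s hs using gX_v c A hm hc φ
    choose t ht using gX_v c A hm hc φ.symm
    have hst : ∀ v, s (t v) = v := by
      intro v
      have h := hs (t v)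
      rw [← ht v, RelIso.apply_symm_apply] at h
      exact (Sum.inl.inj h).symm
    have hts : ∀ v, t (s v) = v := by
      intro v
      have h := ht (s v)
      rw [← hs v, RelIso.symm_apply_apply] at h
      exact (Sum.inl.inj h).symm
    have hmem : (⟨s, t, hts, hst⟩ : Equiv.Perm V) ∈ colAut c A := by
      refine ⟨fun v => gX_col c A hm hc φ v (s v) (hs v), fun u v => ?_⟩
      have h : (gX c A).Adj (φ (Sum.inl u)) (φ (Sum.inl v)) ↔
        (gX c A).Adj (Sum.inl u) (Sum.inl v) := φ.map_adj_iff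
      rw [hs, hs] at h
      exact h
    refine ⟨⟨⟨s, t, hts, hst⟩, hmem⟩, ?_⟩
    obtain ⟨h1, h2⟩ := gX_fix c A hm hc φ
    ext x
    rcases x with u | i | i
    · rw [gHom_inl, hs]
      rfl
    · rw [gHom_inr, h1]
    · rw [gHom_inr, h2]

theorem gX_card [Finite V] :
    Nat.card (gX c A).edgeSet ≤ Nat.card A.edgeSet + 2 * Nat.card V + 2 * m + 3 := by
  obtain ⟨f1, hf1⟩ : ∃ f1 : V × Bool → Sym2 (V ⊕ (Fin (m + 2) ⊕ Fin (m + 2))),
      ∀ v b, f1 (v, b) = s(Sum.inl v, Sum.inr (Sum.inl (if b then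
        ⟨c v, by have := (c v).2; omega⟩ else ⟨c v + 1, by have := (c v).2; omega⟩))) :=
    ⟨fun x => s(Sum.inl x.1, Sum.inr (Sum.inl (if x.2 then
        ⟨c x.1, by have := (c x.1).2; omega⟩ else ⟨c x.1 + 1, by have := (c x.1).2; omega⟩))),
      fun v b => rfl⟩
  obtain ⟨f2, hf2⟩ : ∃ f2 : Fin (m + 1) → Sym2 (V ⊕ (Fin (m + 2) ⊕ Fin (m + 2))),
      ∀ i, f2 i = s(Sum.inr (Sum.inl i.castSucc), Sum.inr (Sum.inl i.succ)) := ⟨_, fun i => rfl⟩
  obtain ⟨f3, hf3⟩ : ∃ f3 : Fin (m + 2) → Sym2 (V ⊕ (Fin (m + 2) ⊕ Fin (m + 2))),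
      ∀ i, f3 i = s(Sum.inr (Sum.inl i), Sum.inr (Sum.inr i)) := ⟨_, fun i => rfl⟩
  have hv : ∀ (v : V) (j : Fin (m + 2)), ((j : ℕ) = c v ∨ (j : ℕ) = c v + 1) →
      s(Sum.inl v, Sum.inr (Sum.inl j)) ∈ Set.range f1 := by
    intro v j hj
    have h2 := (c v).2
    rcases hj with h | h
    · refine ⟨(v, true), ?_⟩
      rw [hf1, if_pos rfl]
      have : j = ⟨c v, by omega⟩ := Fin.ext h
      rw [this]
    · refine ⟨(v, false), ?_⟩
      rw [hf1, if_neg (by simp)]
      have : j = ⟨c v + 1, by omega⟩ := Fin.ext h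
      rw [this]
  have hq : ∀ (i j : Fin (m + 2)), (i : ℕ) + 1 = j →
      s(Sum.inr (Sum.inl i), Sum.inr (Sum.inl j)) ∈ Set.range f2 := by
    intro i j hij
    have hj := j.2
    refine ⟨⟨i, by omega⟩, ?_⟩
    rw [hf2]
    have e1 : (⟨(i : ℕ), by omega⟩ : Fin (m + 1)).castSucc = i := Fin.ext rfl
    have e2 : (⟨(i : ℕ), by omega⟩ : Fin (m + 1)).succ = j := Fin.ext (by simp [hij])
    rw [e1, e2]
  have hsub : (gX c A).edgeSet ⊆ (Sym2.map Sum.inl '' A.edgeSet) ∪
      (Set.range f1 ∪ (Set.range f2 ∪ Set.range f3)) := by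
    intro e
    induction e with
    | _ x y =>
      intro h
      rw [SimpleGraph.mem_edgeSet, gX_adj] at h
      rcases x with u | i | i <;> rcases y with v | j | j
      · left
        exact ⟨s(u, v), h, rfl⟩
      · right; left
        exact hv u j h
      · exact h.elim
      · right; left
        rw [Sym2.eq_swap]
        exact hv v i h
      · right; right; left
        rcases h with h | h
        · exact hq i j h
        · rw [Sym2.eq_swap]
          exact hq j i h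
      · right; right; right
        have : i = j := h
        rw [this]
        exact ⟨j, hf3 j⟩
      · exact h.elim
      · right; right; right
        have : i = j := h
        rw [this, Sym2.eq_swap]
        exact ⟨j, hf3 j⟩
      · exact h.elim
  have hr : ∀ {α : Type} [Finite α] (f : α → Sym2 (V ⊕ (Fin (m + 2) ⊕ Fin (m + 2)))),
      (Set.range f).ncard ≤ Nat.card α := by
    intro α _ f
    rw [← Set.image_univ]
    exact (Set.ncard_image_le (Set.toFinite _)).trans (by rw [Set.ncard_univ])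
  have h1 := Set.ncard_le_ncard hsub (Set.toFinite _)
  have h2 := Set.ncard_union_le (Sym2.map Sum.inl '' A.edgeSet)
    (Set.range f1 ∪ (Set.range f2 ∪ Set.range f3))
  have h3 := Set.ncard_union_le (Set.range f1) (Set.range f2 ∪ Set.range f3)
  have h4 := Set.ncard_union_le (Set.range f2) (Set.range f3)
  have h5 : (Sym2.map (Sum.inl : V → V ⊕ (Fin (m + 2) ⊕ Fin (m + 2))) '' A.edgeSet).ncard ≤
      A.edgeSet.ncard := Set.ncard_image_le (Set.toFinite _)
  have h6 := hr f1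
  have h7 := hr f2
  have h8 := hr f3
  rw [Nat.card_prod, Nat.card_eq_fintype_card (α := Bool), Fintype.card_bool] at h6
  rw [Nat.card_fin] at h7 h8
  rw [Nat.card_coe_set_eq, Nat.card_coe_set_eq]
  omega

end gad

/-- TARGET: a coloured graph is turned into a graph with the same automorphism group -/
theorem gadget {V : Type} [Finite V] (m : ℕ) (hm : 0 < m) (c : V → Fin m) (hc : Function.Surjective c)
    (A : SimpleGraph V) :
    ∃ (W : Type) (_ : Finite W) (X : SimpleGraph W), Nonempty ((X ≃g X) ≃* colAut c A) ∧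
      Nat.card X.edgeSet ≤ Nat.card A.edgeSet + 2 * Nat.card V + 2 * m + 3 :=
  ⟨V ⊕ (Fin (m + 2) ⊕ Fin (m + 2)), inferInstance, gX c A,
    ⟨(MulEquiv.ofBijective (gHom c A) (gHom_bij c A hm hc)).symm⟩, gX_card c A⟩

end Pool.Agent.Helper190.EdgeLin
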