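import Pool.Agent.Helper190.EdgeLin.Diag
import Pool.Agent.Helper190.EdgeLin.Gadget
set_option autoImplicit false
namespace Pool.Agent.Helper190.EdgeLin

section
variable {G : Type} [Group G] (D : Diag G)

abbrev Vt : Type := (Σ t, G ⧸ D.B t) ⊕ (Σ l, G ⧸ D.B (D.src l))

/-- the colour of a vertex -/
def colr : Vt D → D.T ⊕ D.Λ
  | Sum.inl x => Sum.inl x.1
  | Sum.inr x => Sum.inr x.1

/-- the incidence relation between link vertices and node vertices -/
def inc (x y : Vt D) : Prop :=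
  ∃ (l : D.Λ) (g : G), x = Sum.inr ⟨l, QuotientGroup.mk g⟩ ∧
    (y = Sum.inl ⟨D.src l, QuotientGroup.mk g⟩ ∨ y = Sum.inl ⟨D.tgt l, QuotientGroup.mk (g * D.a l)⟩)

def gr : SimpleGraph (Vt D) where
  Adj x y := inc D x y ∨ inc D y x
  symm := ⟨fun _ _ h => h.symm⟩
  loopless := ⟨by
    rintro x (⟨l, g, h1, h2⟩ | ⟨l, g, h1, h2⟩) <;> subst h1 <;> simp at h2⟩

/-- left translation -/
def trans (g : G) : Vt D → Vt D
  | Sum.inl x => Sum.inl ⟨x.1, g • x.2⟩
  | Sum.inr x => Sum.inr ⟨x.1, g • x.2⟩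

theorem trans_mul (g h : G) (x : Vt D) : trans D (g * h) x = trans D g (trans D h x) := by
  rcases x with ⟨t, v⟩ | ⟨l, v⟩ <;> simp [trans, mul_smul]

theorem trans_one (x : Vt D) : trans D 1 x = x := by
  rcases x with ⟨t, v⟩ | ⟨l, v⟩ <;> simp [trans]

def transP (g : G) : Equiv.Perm (Vt D) where
  toFun := trans D g
  invFun := trans D g⁻¹
  left_inv x := by rw [← trans_mul, inv_mul_cancel, trans_one]
  right_inv x := by rw [← trans_mul, mul_inv_cancel, trans_one]

theorem inc_trans (g : G) (x y : Vt D) (h : inc D x y) : inc D (trans D g x) (trans D g y) := by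
  obtain ⟨l, h, rfl, (rfl | rfl)⟩ := h
  · exact ⟨l, g * h, rfl, Or.inl rfl⟩
  · refine ⟨l, g * h, rfl, Or.inr ?_⟩
    rw [mul_assoc]; rfl

theorem gr_trans (g : G) (x y : Vt D) (h : (gr D).Adj x y) : (gr D).Adj (trans D g x) (trans D g y) := by
  rcases h with h | h
  · exact Or.inl (inc_trans D g _ _ h)
  · exact Or.inr (inc_trans D g _ _ h)

variable {m : ℕ} (e : D.T ⊕ D.Λ ≃ Fin m)

theorem colr_trans (g : G) (x : Vt D) : colr D (trans D g x) = colr D x := by
  rcases x with ⟨t, v⟩ | ⟨l, v⟩ <;> rfl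

theorem transP_mem (g : G) : transP D g ∈ colAut (fun x => e (colr D x)) (gr D) := by
  refine ⟨fun v => ?_, fun u v => ⟨fun h => ?_, fun h => ?_⟩⟩
  · show e (colr D (trans D g v)) = e (colr D v)
    rw [colr_trans]
  · have := gr_trans D g⁻¹ _ _ h
    have e1 : ∀ u, trans D g⁻¹ (transP D g u) = u := fun u => (transP D g).left_inv u
    rwa [e1, e1] at this
  · exact gr_trans D g _ _ h

def Psi : G →* colAut (fun x => e (colr D x)) (gr D) where
  toFun g := ⟨transP D g, transP_mem D e g⟩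
  map_one' := by
    apply Subtype.ext
    apply Equiv.ext
    intro x
    exact trans_one D x
  map_mul' g h := by
    apply Subtype.ext
    apply Equiv.ext
    intro x
    exact trans_mul D g h x

theorem Psi_inj (hB : D.B D.hub = ⊥) : Function.Injective (Psi D e) := by
  rw [injective_iff_map_eq_one]
  intro g hg
  have h1 : transP D g = 1 := congrArg Subtype.val hg
  have h2 : trans D g (Sum.inl ⟨D.hub, QuotientGroup.mk 1⟩) = Sum.inl ⟨D.hub, QuotientGroup.mk 1⟩ :=
    congrArg (fun σ : Equiv.Perm (Vt D) => σ (Sum.inl ⟨D.hub, QuotientGroup.mk 1⟩)) h1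
  have h3 : (⟨D.hub, g • (QuotientGroup.mk 1 : G ⧸ D.B D.hub)⟩ : Σ t, G ⧸ D.B t) =
      ⟨D.hub, QuotientGroup.mk 1⟩ := Sum.inl_injective h2
  have h4 : (QuotientGroup.mk (g * 1) : G ⧸ D.B D.hub) = QuotientGroup.mk 1 := by
    have := (Sigma.mk.inj_iff.1 h3).2
    exact eq_of_heq this
  rw [QuotientGroup.eq, hB, Subgroup.mem_bot] at h4
  simpa using h4

theorem node_inj {t : D.T} {g h : G}
    (hh : (Sum.inl ⟨t, QuotientGroup.mk g⟩ : Vt D) = Sum.inl ⟨t, QuotientGroup.mk h⟩) :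
    g⁻¹ * h ∈ D.B t := by
  have h1 := Sum.inl_injective hh
  have h2 := eq_of_heq (Sigma.mk.inj_iff.1 h1).2
  exact QuotientGroup.eq.1 h2

theorem node_eq {t : D.T} {g h : G} (hh : g⁻¹ * h ∈ D.B t) :
    (Sum.inl ⟨t, QuotientGroup.mk g⟩ : Vt D) = Sum.inl ⟨t, QuotientGroup.mk h⟩ := by
  rw [QuotientGroup.eq.2 hh]

theorem link_inj {l : D.Λ} {g h : G}
    (hh : (Sum.inr ⟨l, QuotientGroup.mk g⟩ : Vt D) = Sum.inr ⟨l, QuotientGroup.mk h⟩) :
    g⁻¹ * h ∈ D.B (D.src l) := by
  have h1 := Sum.inr_injective hh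
  have h2 := eq_of_heq (Sigma.mk.inj_iff.1 h1).2
  exact QuotientGroup.eq.1 h2

theorem link_eq {l : D.Λ} {g h : G} (hh : g⁻¹ * h ∈ D.B (D.src l)) :
    (Sum.inr ⟨l, QuotientGroup.mk g⟩ : Vt D) = Sum.inr ⟨l, QuotientGroup.mk h⟩ := by
  rw [QuotientGroup.eq.2 hh]

theorem tgt_eq {l : D.Λ} {g h : G} (hh : g⁻¹ * h ∈ D.B (D.src l)) :
    (Sum.inl ⟨D.tgt l, QuotientGroup.mk (g * D.a l)⟩ : Vt D) =
      Sum.inl ⟨D.tgt l, QuotientGroup.mk (h * D.a l)⟩ := by
  apply node_eq
  have := D.compat l _ hh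
  have e2 : (g * D.a l)⁻¹ * (h * D.a l) = (D.a l)⁻¹ * (g⁻¹ * h) * D.a l := by group
  rw [e2]; exact this

/-- neighbours of a link vertex -/
theorem nb_link {l : D.Λ} {g : G} {y : Vt D} (h : (gr D).Adj (Sum.inr ⟨l, QuotientGroup.mk g⟩) y) :
    y = Sum.inl ⟨D.src l, QuotientGroup.mk g⟩ ∨ y = Sum.inl ⟨D.tgt l, QuotientGroup.mk (g * D.a l)⟩ := by
  rcases h with ⟨l', g', h1, h2⟩ | ⟨l', g', h1, h2⟩
  · have h3 := Sum.inr_injective h1
    obtain rfl : l = l' := congrArg Sigma.fst h3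
    have h4 := link_inj D h1
    rcases h2 with rfl | rfl
    · left
      exact (node_eq D h4).symm
    · right
      exact (tgt_eq D h4).symm
  · rcases h2 with h2 | h2 <;> cases h2

theorem Psi_surj (hB : Piece D ⊤) : Function.Surjective (Psi D e) := by
  rintro ⟨σ, hc, hA⟩
  have hc' : ∀ x, colr D (σ x) = colr D x := fun x => e.injective (hc x)
  have hnode : ∀ t g, ∃ h, σ (Sum.inl ⟨t, QuotientGroup.mk g⟩) = Sum.inl ⟨t, QuotientGroup.mk h⟩ := by
    intro t g
    have h1 := hc' (Sum.inl ⟨t, QuotientGroup.mk g⟩)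
    rcases hx : σ (Sum.inl ⟨t, QuotientGroup.mk g⟩) with ⟨t', v⟩ | ⟨l', v⟩
    · rw [hx] at h1
      obtain rfl : t' = t := Sum.inl_injective h1
      obtain ⟨h, rfl⟩ := QuotientGroup.mk_surjective v
      exact ⟨h, rfl⟩
    · rw [hx] at h1; cases h1
  have hlink : ∀ l g, ∃ h, σ (Sum.inr ⟨l, QuotientGroup.mk g⟩) = Sum.inr ⟨l, QuotientGroup.mk h⟩ := by
    intro l g
    have h1 := hc' (Sum.inr ⟨l, QuotientGroup.mk g⟩)
    rcases hx : σ (Sum.inr ⟨l, QuotientGroup.mk g⟩) with ⟨t', v⟩ | ⟨l', v⟩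
    · rw [hx] at h1; cases h1
    · rw [hx] at h1
      obtain rfl : l' = l := Sum.inr_injective h1
      obtain ⟨h, rfl⟩ := QuotientGroup.mk_surjective v
      exact ⟨h, rfl⟩
  -- link vertices move as their source
  have hls : ∀ l g h, σ (Sum.inl ⟨D.src l, QuotientGroup.mk g⟩) = Sum.inl ⟨D.src l, QuotientGroup.mk h⟩ →
      σ (Sum.inr ⟨l, QuotientGroup.mk g⟩) = Sum.inr ⟨l, QuotientGroup.mk h⟩ := by
    intro l g h hh
    obtain ⟨k, hk⟩ := hlink l g
    have h1 : (gr D).Adj (Sum.inr ⟨l, QuotientGroup.mk g⟩) (Sum.inl ⟨D.src l, QuotientGroup.mk g⟩) :=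
      Or.inl ⟨l, g, rfl, Or.inl rfl⟩
    have h2 := (hA _ _).2 h1
    rw [hk, hh] at h2
    rcases nb_link D h2 with h3 | h3
    · rw [hk]
      apply link_eq
      have := node_inj D h3
      have e2 : k⁻¹ * h = (h⁻¹ * k)⁻¹ := by group
      rw [e2]; exact inv_mem this
    · exfalso
      have := congrArg Sigma.fst (Sum.inl_injective h3)
      exact D.ne l this
  have htg : ∀ l g h, σ (Sum.inl ⟨D.src l, QuotientGroup.mk g⟩) = Sum.inl ⟨D.src l, QuotientGroup.mk h⟩ →
      σ (Sum.inl ⟨D.tgt l, QuotientGroup.mk (g * D.a l)⟩) =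
        Sum.inl ⟨D.tgt l, QuotientGroup.mk (h * D.a l)⟩ := by
    intro l g h hh
    have h0 := hls l g h hh
    have h1 : (gr D).Adj (Sum.inr ⟨l, QuotientGroup.mk g⟩)
        (Sum.inl ⟨D.tgt l, QuotientGroup.mk (g * D.a l)⟩) := Or.inl ⟨l, g, rfl, Or.inr rfl⟩
    have h2 := (hA _ _).2 h1
    rw [h0] at h2
    obtain ⟨k, hk⟩ := hnode (D.tgt l) (g * D.a l)
    rw [hk] at h2 ⊢
    rcases nb_link D h2 with h3 | h3
    · exfalso
      have := congrArg Sigma.fst (Sum.inl_injective h3)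
      exact D.ne l this.symm
    · exact h3
  let R : Mor D Unit :=
    { R := fun t g _ h => σ (Sum.inl ⟨t, QuotientGroup.mk g⟩) = Sum.inl ⟨t, QuotientGroup.mk h⟩
      total := fun t g => ⟨(), hnode t g⟩
      uniq := by
        intro t g i h i' h' H H'
        exact ⟨rfl, node_inj D (H.symm.trans H')⟩
      right := by
        intro t g i h b hb H
        rw [H]
        apply node_eq
        simpa using hb
      left := by
        intro t g i h b hb H
        rw [← H]
        congr 1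
        apply node_eq
        have : (g * b)⁻¹ * g = b⁻¹ := by group
        rw [this]; exact inv_mem hb
      comm := fun l g _ h H => htg l g h H }
  obtain ⟨k, hk⟩ := hnode D.hub 1
  have hfin := hB Unit R 1 () k hk
  refine ⟨k, ?_⟩
  apply Subtype.ext
  apply Equiv.ext
  intro x
  show trans D k x = σ x
  rcases x with ⟨t, v⟩ | ⟨l, v⟩
  · obtain ⟨g, rfl⟩ := QuotientGroup.mk_surjective v
    have h1 := hfin g (Subgroup.mem_top _) t
    rw [one_mul] at h1
    exact h1.symm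
  · obtain ⟨g, rfl⟩ := QuotientGroup.mk_surjective v
    have h1 := hfin g (Subgroup.mem_top _) (D.src l)
    rw [one_mul] at h1
    exact (hls l g (k * g) h1).symm

end

theorem card_Vt {G : Type} [Group G] [Finite G] (D : Diag G) : Nat.card (Vt D) = cost D := by
  rw [Nat.card_sum, Nat.card_sigma, Nat.card_sigma]
  rfl

theorem card_edges {G : Type} [Group G] [Finite G] (D : Diag G) :
    Nat.card (gr D).edgeSet ≤ 2 * cost D := by
  classical
  let F : (Σ l, G ⧸ D.B (D.src l)) × Bool → Sym2 (Vt D) := fun x =>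
    s(Sum.inr x.1, if x.2 then Sum.inl ⟨D.src x.1.1, x.1.2⟩ else
      Sum.inl ⟨D.tgt x.1.1, QuotientGroup.mk (x.1.2.out * D.a x.1.1)⟩)
  have hF : (gr D).edgeSet ⊆ Set.range F := by
    intro ed
    induction ed with
    | _ x y =>
      intro h
      have key : ∀ x y, inc D x y → s(x, y) ∈ Set.range F := by
        rintro x y ⟨l, g, rfl, (rfl | rfl)⟩
        · exact ⟨(⟨l, QuotientGroup.mk g⟩, true), by simp [F]⟩
        · refine ⟨(⟨l, QuotientGroup.mk g⟩, false), ?_⟩
          have h1 : g⁻¹ * (QuotientGroup.mk g : G ⧸ D.B (D.src l)).out ∈ D.B (D.src l) := by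
            rw [← QuotientGroup.eq]
            exact (Quotient.out_eq (QuotientGroup.mk g : G ⧸ D.B (D.src l))).symm
          have h2 := tgt_eq D h1
          simp only [F, Bool.false_eq_true, if_false]
          rw [h2]
      rcases h with h | h
      · exact key x y h
      · rw [Sym2.eq_swap]; exact key y x h
  have hfin : Finite (Vt D) := by
    infer_instance
  have h1 : Nat.card (gr D).edgeSet ≤ Nat.card (Set.range F) :=
    Nat.card_mono (Set.toFinite _) hF
  have h2 : Nat.card (Set.range F) ≤ Nat.card ((Σ l, G ⧸ D.B (D.src l)) × Bool) :=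
    Finite.card_range_le F
  refine h1.trans (h2.trans ?_)
  rw [Nat.card_prod, Nat.card_sigma]
  have h3 : ∑ l, Nat.card (G ⧸ D.B (D.src l)) ≤ cost D := by
    unfold cost
    exact Nat.le_add_left _ _
  rw [Nat.card_eq_fintype_card (α := Bool), Fintype.card_bool]
  omega

theorem one_le_index {G : Type} [Group G] [Finite G] (H : Subgroup G) : 1 ≤ H.index :=
  Nat.one_le_iff_ne_zero.2 Subgroup.index_ne_zero_of_finite

/-- a rigid coset diagram gives a graph with few edges representing the group -/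
theorem graph_of_diag {G : Type} [Group G] [Finite G] (D : Diag G) (hB : D.B D.hub = ⊥)
    (hD : Piece D ⊤) :
    ∃ (V : Type) (_ : Finite V) (X : SimpleGraph V),
      Nonempty ((X ≃g X) ≃* G) ∧ Nat.card X.edgeSet ≤ 9 * cost D := by
  classical
  let m := Fintype.card (D.T ⊕ D.Λ)
  let e : D.T ⊕ D.Λ ≃ Fin m := Fintype.equivFin _
  have hm : 0 < m := Fintype.card_pos_iff.2 ⟨Sum.inl D.hub⟩
  have hsurj : Function.Surjective (fun x : Vt D => e (colr D x)) := by
    apply e.surjective.comp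
    rintro (t | l)
    · exact ⟨Sum.inl ⟨t, QuotientGroup.mk 1⟩, rfl⟩
    · exact ⟨Sum.inr ⟨l, QuotientGroup.mk 1⟩, rfl⟩
  have hfin : Finite (Vt D) := by infer_instance
  obtain ⟨W, hW, X, ⟨f⟩, hX⟩ := gadget m hm (fun x : Vt D => e (colr D x)) hsurj (gr D)
  refine ⟨W, hW, X, ⟨f.trans (MulEquiv.ofBijective (Psi D e) ⟨Psi_inj D e hB, Psi_surj D e hD⟩).symm⟩, ?_⟩
  have h1 := card_edges D
  have h2 := card_Vt D
  have h3 : m ≤ cost D := by
    show Fintype.card (D.T ⊕ D.Λ) ≤ cost D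
    rw [Fintype.card_sum]
    unfold cost
    apply Nat.add_le_add
    · rw [← Finset.card_univ, Finset.card_eq_sum_ones]
      exact Finset.sum_le_sum fun t _ => one_le_index _
    · rw [← Finset.card_univ, Finset.card_eq_sum_ones]
      exact Finset.sum_le_sum fun t _ => one_le_index _
  have h4 : 1 ≤ cost D := by
    unfold cost
    have : (D.B D.hub).index ≤ ∑ t, (D.B t).index :=
      Finset.single_le_sum (f := fun t => (D.B t).index) (fun _ _ => Nat.zero_le _) (Finset.mem_univ _)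
    have := one_le_index (D.B D.hub)
    omega
  omega

end Pool.Agent.Helper190.EdgeLin
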