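import Mathlib
set_option autoImplicit false
namespace Pool.Agent.Helper190.EdgeLin

/-- TARGET 1 -/
theorem exists_normal_pgroup (L : Type) [Group L] [Finite L] (hs : Group.IsSolvable L) (hn : Nontrivial L) :
    ∃ (q : ℕ) (_ : q.Prime) (N : Subgroup L), N.Normal ∧ N ≠ ⊥ ∧ IsPGroup q N := by
  classical
  have hex : ∃ n, derivedSeries L n = ⊥ := hs.solvable
  set n := Nat.find hex with hn'
  have hnb : derivedSeries L n = ⊥ := Nat.find_spec hex
  have hn0 : n ≠ 0 := by
    intro h0
    rw [h0] at hnb
    have : (⊤ : Subgroup L) = ⊥ := hnb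
    exact top_ne_bot this
  obtain ⟨m, hm⟩ : ∃ m, n = m + 1 := ⟨n - 1, by omega⟩
  set A := derivedSeries L m with hA
  have hAne : A ≠ ⊥ := Nat.find_min hex (by omega : m < n)
  have hAn : A.Normal := derivedSeries_normal L m
  have hAA : ⁅A, A⁆ = ⊥ := by
    rw [hm, derivedSeries_succ] at hnb
    exact hnb
  have hcomm : ∀ a ∈ A, ∀ b ∈ A, Commute a b := by
    intro a ha b hb
    rw [Subgroup.commutator_eq_bot_iff_le_centralizer] at hAA
    have := hAA ha
    rw [Subgroup.mem_centralizer_iff] at this
    exact (this b hb).symm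
  have hAnt : Nontrivial A := (Subgroup.nontrivial_iff_ne_bot A).mpr hAne
  have hcard : Nat.card A ≠ 1 := by
    have := Finite.one_lt_card (α := A)
    omega
  obtain ⟨q, hq, hqd⟩ := Nat.exists_prime_and_dvd hcard
  let N : Subgroup L :=
    { carrier := {a | a ∈ A ∧ a ^ q = 1}
      mul_mem' := by
        rintro a b ⟨ha, ha'⟩ ⟨hb, hb'⟩
        refine ⟨A.mul_mem ha hb, ?_⟩
        rw [(hcomm a ha b hb).mul_pow, ha', hb', one_mul]
      one_mem' := ⟨A.one_mem, one_pow q⟩
      inv_mem' := by
        rintro a ⟨ha, ha'⟩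
        exact ⟨A.inv_mem ha, by rw [inv_pow, ha', inv_one]⟩ }
  refine ⟨q, hq, N, ?_, ?_, ?_⟩
  · constructor
    rintro a ⟨ha, ha'⟩ g
    refine ⟨hAn.conj_mem a ha g, ?_⟩
    rw [conj_pow, ha', mul_one, mul_inv_cancel]
  · have : Fact q.Prime := ⟨hq⟩
    obtain ⟨x, hx⟩ := exists_prime_orderOf_dvd_card' q hqd
    intro hbot
    have hxN : (x : L) ∈ N := by
      refine ⟨x.2, ?_⟩
      have : x ^ q = 1 := by rw [← hx]; exact pow_orderOf_eq_one x
      exact_mod_cast congrArg Subtype.val this
    rw [hbot, Subgroup.mem_bot] at hxN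
    have h1 : x = 1 := Subtype.ext hxN
    rw [h1, orderOf_one] at hx
    exact hq.one_lt.ne hx
  · intro g
    refine ⟨1, ?_⟩
    rw [pow_one]
    exact Subtype.ext g.2.2

theorem hall_complement_aux (p : ℕ) (hp : p.Prime) (m : ℕ) :
    ∀ (L : Type) [Group L] [Finite L], Nat.card L = m → Group.IsSolvable L →
    ∃ H : Subgroup L, (Nat.card H).Coprime p ∧ ∃ n : ℕ, H.index = p ^ n := by
  induction m using Nat.strong_induction_on with
  | _ m ih =>
    intro L _ _ hcard hs
    by_cases hn : Nontrivial L
    · obtain ⟨q, hq, N, hN, hNb, hNq⟩ := exists_normal_pgroup L hs hn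
      have := hN
      have : Fact q.Prime := ⟨hq⟩
      have hLc : Nat.card L = Nat.card (L ⧸ N) * Nat.card N :=
        Subgroup.card_eq_card_quotient_mul_card_subgroup N
      have hN1 : 1 < Nat.card N := by
        have : Nontrivial N := (Subgroup.nontrivial_iff_ne_bot N).mpr hNb
        exact Finite.one_lt_card
      have hQpos : 0 < Nat.card (L ⧸ N) := Nat.card_pos
      have hlt : Nat.card (L ⧸ N) < m := by
        rw [← hcard, hLc]
        nlinarith
      have := hs
      obtain ⟨K', hK', n, hn'⟩ := ih _ hlt (L ⧸ N) rfl inferInstance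
      set K : Subgroup L := K'.comap (QuotientGroup.mk' N) with hK
      have hKi : K.index = p ^ n := by
        rw [hK, Subgroup.index_comap_of_surjective _ (QuotientGroup.mk'_surjective N), hn']
      have hpn : 0 < p ^ n := pow_pos hp.pos n
      have hKc : Nat.card K = Nat.card K' * Nat.card N := by
        have h1 := K.card_mul_index
        have h2 := K'.card_mul_index
        rw [hKi, hLc, ← h2, hn'] at h1
        have h3 : Nat.card K * p ^ n = (Nat.card K' * Nat.card N) * p ^ n := by
          rw [h1]; ring
        exact Nat.eq_of_mul_eq_mul_right hpn h3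
      obtain ⟨k, hk⟩ := (IsPGroup.iff_card).mp hNq
      by_cases hqp : q = p
      · subst hqp
        have hNK : N ≤ K := by
          intro x hx
          rw [hK, Subgroup.mem_comap]
          have : QuotientGroup.mk' N x = 1 := (QuotientGroup.eq_one_iff x).mpr hx
          rw [this]
          exact K'.one_mem
        set N' : Subgroup K := N.subgroupOf K with hN'
        have hN'c : Nat.card N' = Nat.card N :=
          Nat.card_congr (Subgroup.subgroupOfEquivOfLe hNK).toEquiv
        have hNpos : 0 < Nat.card N := by omega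
        have hN'i : N'.index = Nat.card K' := by
          have h1 := N'.card_mul_index
          rw [hN'c, hKc, mul_comm (Nat.card K')] at h1
          exact Nat.eq_of_mul_eq_mul_left hNpos h1
        have hco : Nat.Coprime (Nat.card N') N'.index := by
          rw [hN'c, hN'i, hk]
          exact (hK'.symm).pow_left k
        have : N'.Normal := inferInstance
        obtain ⟨H0, hH0⟩ := Subgroup.exists_right_complement'_of_coprime hco
        have hH0c : Nat.card H0 = Nat.card K' := by
          rw [← hN'i]
          exact (hH0.symm.index_eq_card).symm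
        set H : Subgroup L := H0.map K.subtype with hH
        have hHc : Nat.card H = Nat.card K' := by
          rw [← hH0c]
          exact (Nat.card_congr (H0.equivMapOfInjective K.subtype K.subtype_injective).toEquiv).symm
        refine ⟨H, by rw [hHc]; exact hK', k + n, ?_⟩
        have h1 := H.card_mul_index
        have hK'pos : 0 < Nat.card K' := Nat.card_pos
        have h2 := K'.card_mul_index
        rw [hHc, hLc, ← h2, hn', hk] at h1
        have h3 : Nat.card K' * H.index = Nat.card K' * q ^ (k + n) := by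
          rw [h1]; ring
        exact Nat.eq_of_mul_eq_mul_left hK'pos h3
      · refine ⟨K, ?_, n, hKi⟩
        rw [hKc]
        apply Nat.Coprime.mul_left hK'
        rw [hk]
        exact ((Nat.coprime_primes hq hp).mpr hqp).pow_left k
    · refine ⟨⊥, ?_, 0, ?_⟩
      · simp
      · have : Subsingleton L := not_nontrivial_iff_subsingleton.mp hn
        rw [pow_zero, Subgroup.index_eq_one]
        exact Subsingleton.elim _ _

/-- TARGET 2: Hall p'-subgroups of finite soluble groups -/
theorem hall_complement (p : ℕ) (hp : p.Prime) (L : Type) [Group L] [Finite L] (hs : Group.IsSolvable L) :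
    ∃ H : Subgroup L, (Nat.card H).Coprime p ∧ ∃ n : ℕ, H.index = p ^ n :=
  hall_complement_aux p hp (Nat.card L) L rfl hs

/-- TARGET 3 -/
theorem sylow_sup_hall (p : ℕ) [Fact p.Prime] (L : Type) [Group L] [Finite L] (P : Sylow p L) (H : Subgroup L)
    (hH : ∃ n : ℕ, H.index = p ^ n) : (P : Subgroup L) ⊔ H = ⊤ := by
  obtain ⟨n, hn⟩ := hH
  rw [← Subgroup.index_eq_one]
  have h1 : ((P : Subgroup L) ⊔ H).index ∣ p ^ n := hn ▸ Subgroup.index_dvd_of_le le_sup_right
  have h2 : ((P : Subgroup L) ⊔ H).index ∣ (P : Subgroup L).index :=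
    Subgroup.index_dvd_of_le le_sup_left
  obtain ⟨k, -, hk⟩ := (Nat.dvd_prime_pow (Fact.out : p.Prime)).mp h1
  rcases Nat.eq_zero_or_pos k with hk0 | hk0
  · rw [hk, hk0, pow_zero]
  · exfalso
    apply P.not_dvd_index
    refine dvd_trans ?_ h2
    rw [hk]
    exact dvd_pow_self p hk0.ne'

end Pool.Agent.Helper190.EdgeLin
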