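import Pool.Agent.Helper190.EdgeLin.Rep
import Pool.Agent.Helper190.EdgeLin.GraphOf
set_option autoImplicit false
namespace Pool.Agent.Helper190.EdgeLin

theorem rep_generated {G : Type} [Group G] [Finite G] (k K : ℕ) (L : Fin k → Subgroup G)
    (hL : ∀ i, Rep (L i) K) (hG : ⨆ i, L i = ⊤) : Rep G (1 + k + k * K) := by
  choose DL h1 h2 h3 using hL
  let D : Fin k → Diag G := fun i => Ind (L i).subtype (DL i)
  refine ⟨Amal D, rfl, Amal_piece D L ?_ ?_ hG, ?_⟩
  · intro j
    show ((DL j).B (DL j).hub).map _ = ⊥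
    rw [h1, Subgroup.map_bot]
  · intro j
    have := Ind_piece (L j).subtype (L j).subtype_injective (DL j) (h2 j)
    rw [Subgroup.range_subtype] at this
    exact this
  · rw [Amal_cost, Fintype.card_fin]
    have h4 : ∀ j, cost (D j) ≤ K * Nat.card G := by
      intro j
      have h5 := Ind_cost (L j).subtype (L j).subtype_injective (DL j)
      rw [Subgroup.range_subtype] at h5
      show cost (Ind (L j).subtype (DL j)) ≤ _
      rw [h5]
      calc cost (DL j) * (L j).index ≤ (K * Nat.card (L j)) * (L j).index :=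
            Nat.mul_le_mul_right _ (h3 j)
        _ = K * Nat.card G := by rw [mul_assoc, Subgroup.card_mul_index]
    have h6 : ∑ j, cost (D j) ≤ k * (K * Nat.card G) := by
      refine (Finset.sum_le_card_nsmul _ _ _ fun j _ => h4 j).trans ?_
      simp
    calc Nat.card G * (1 + k) + ∑ j, cost (D j) ≤ Nat.card G * (1 + k) + k * (K * Nat.card G) := by
          omega
      _ = (1 + k + k * K) * Nat.card G := by ring

/-- the main theorem with the constant 95274 -/
theorem main_generated (G : Type) [Group G] [Finite G] (k : ℕ) (L : Fin k → Subgroup G) (hk : 0 < k)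
    (hL : ∀ i, Group.IsSolvable (L i)) (hG : ⨆ i, L i = ⊤) :
    ∃ (V : Type) (_ : Finite V) (X : SimpleGraph V), Nonempty ((X ≃g X) ≃* G) ∧
      Nat.card X.edgeSet ≤ 95274 * k * Nat.card G := by
  obtain ⟨D, h1, h2, h3⟩ := rep_generated k 10584 L (fun i => rep_soluble (L i) (hL i)) hG
  obtain ⟨V, hV, X, hX, hE⟩ := graph_of_diag D h1 h2
  refine ⟨V, hV, X, hX, hE.trans ?_⟩
  have h4 : 1 + k + k * 10584 ≤ 10586 * k := by omega
  calc 9 * cost D ≤ 9 * ((1 + k + k * 10584) * Nat.card G) := Nat.mul_le_mul_left _ h3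
    _ ≤ 9 * ((10586 * k) * Nat.card G) := by gcongr
    _ = 95274 * k * Nat.card G := by ring

/-- every finite group of order at least 2 -/
theorem main_all (G : Type) [Group G] [Finite G] [Nontrivial G] :
    ∃ (V : Type) (_ : Finite V) (X : SimpleGraph V), Nonempty ((X ≃g X) ≃* G) ∧
      Nat.card X.edgeSet ≤ 95274 * (Nat.card G).primeFactors.card * Nat.card G := by
  classical
  set π := (Nat.card G).primeFactors with hπ
  let e : Fin π.card ≃ π := π.equivFin.symm
  have hprime : ∀ i, Nat.Prime (e i : ℕ) := fun i => Nat.prime_of_mem_primeFactors (e i).2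
  have hS : ∀ i, Nonempty (Sylow (e i : ℕ) G) := fun i => inferInstance
  let S : ∀ i, Sylow (e i : ℕ) G := fun i => (hS i).some
  refine main_generated G π.card (fun i => (S i : Subgroup G)) ?_ ?_ ?_
  · rw [Finset.card_pos, hπ, Nat.nonempty_primeFactors]
    exact Finite.one_lt_card
  · intro i
    have : Fact (Nat.Prime (e i : ℕ)) := ⟨hprime i⟩
    have h1 : Group.IsNilpotent (S i : Subgroup G) := (S i).isPGroup'.isNilpotent
    infer_instance
  · by_contra hne
    set H : Subgroup G := ⨆ i, (S i : Subgroup G) with hH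
    have h1 : H.index ≠ 1 := fun h => hne (Subgroup.index_eq_one.1 h)
    obtain ⟨q, hq, hqd⟩ := Nat.exists_prime_and_dvd h1
    have hqG : q ∈ π := by
      rw [hπ, Nat.mem_primeFactors]
      exact ⟨hq, hqd.trans (Subgroup.index_dvd_card H), Nat.card_pos.ne'⟩
    have : Fact q.Prime := ⟨hq⟩
    obtain ⟨i, hi⟩ : ∃ i, e i = ⟨q, hqG⟩ := e.surjective _
    have hle : (S i : Subgroup G) ≤ H := le_iSup (fun i => (S i : Subgroup G)) i
    have hdv : H.index ∣ (S i : Subgroup G).index := Subgroup.index_dvd_of_le hle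
    have hval : (e i : ℕ) = q := by rw [hi]
    have hf : Fact (Nat.Prime (e i : ℕ)) := ⟨hprime i⟩
    have hnd := (S i).not_dvd_index
    refine hnd ((dvd_of_eq hval).trans (hqd.trans hdv))

end Pool.Agent.Helper190.EdgeLin
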