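import Mathlib
set_option autoImplicit false
namespace Pool.Agent.Helper190.EdgeLin

theorem j9433_fact (s : Finset ℕ) : (∀ x ∈ s, 0 < x) → s.card.factorial ≤ ∏ x ∈ s, x := by
  induction s using Finset.induction_on_max with
  | empty => intro _; simp
  | insert a s hlt ih =>
    intro hpos
    have ha : a ∉ s := fun h => lt_irrefl a (hlt a h)
    have h1 := ih fun x hx => hpos x (Finset.mem_insert_of_mem hx)
    have h2 : s ⊆ Finset.Ico 1 a := by
      intro x hx
      rw [Finset.mem_Ico]
      exact ⟨hpos x (Finset.mem_insert_of_mem hx), hlt x hx⟩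
    have h3 := Finset.card_le_card h2
    rw [Nat.card_Ico] at h3
    have h4 := hpos a (Finset.mem_insert_self a s)
    rw [Finset.card_insert_of_notMem ha, Finset.prod_insert ha, Nat.factorial_succ]
    exact Nat.mul_le_mul (by omega) h1

/-- TARGET: the number of prime factors of n is O(log n / log log n) -/
theorem omega_bound : ∃ C : ℕ, ∀ n : ℕ, 3 ≤ n →
    (n.primeFactors.card : ℝ) * Real.log (Real.log n) ≤ C * Real.log n := by
  refine ⟨6, fun n hn => ?_⟩
  set w := n.primeFactors.card with hw
  have hn0 : n ≠ 0 := by omega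
  have hprod : ∏ p ∈ n.primeFactors, p ≤ n := Nat.le_of_dvd (by omega) (Nat.prod_primeFactors_dvd n)
  have hfact : w.factorial ≤ n :=
    (j9433_fact n.primeFactors fun x hx => (Nat.prime_of_mem_primeFactors hx).pos).trans hprod
  have hpow : 2 ^ w ≤ n := by
    refine le_trans ?_ hprod
    exact Finset.pow_card_le_prod _ _ _ fun x hx => (Nat.prime_of_mem_primeFactors hx).two_le
  set L := Real.log n with hL
  have hnR : (0 : ℝ) < n := by exact_mod_cast (by omega : 0 < n)
  have hL0 : 0 ≤ L := Real.log_nonneg (by exact_mod_cast (by omega : 1 ≤ n))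
  have hwR : (0 : ℝ) ≤ w := Nat.cast_nonneg w
  have h2w : (w : ℝ) ≤ 2 * L := by
    have h1 : (2 : ℝ) ^ w ≤ n := by exact_mod_cast hpow
    have h2 := Real.log_le_log (by positivity) h1
    rw [Real.log_pow] at h2
    have h3 := Real.log_two_gt_d9
    nlinarith
  have hkey : (w : ℝ) * Real.log w ≤ L + w := by
    rcases Nat.eq_zero_or_pos w with h0 | hpos
    · rw [h0]; simp [hL0]
    have hwp : (0 : ℝ) < w := by exact_mod_cast hpos
    have h1 := Real.pow_div_factorial_le_exp (w : ℝ) hwR w
    have hf : (0 : ℝ) < (w.factorial : ℝ) := by exact_mod_cast Nat.factorial_pos w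
    rw [div_le_iff₀ hf] at h1
    have h2 : (w : ℝ) ^ w ≤ Real.exp w * n := by
      refine h1.trans (mul_le_mul_of_nonneg_left ?_ (Real.exp_pos _).le)
      exact_mod_cast hfact
    have h3 := Real.log_le_log (by positivity) h2
    rw [Real.log_pow, Real.log_mul (Real.exp_pos _).ne' hnR.ne', Real.log_exp] at h3
    linarith
  set l := Real.log L with hl
  push_cast
  rcases le_or_gt l 0 with h0 | h0
  · have : (w : ℝ) * l ≤ 0 := mul_nonpos_of_nonneg_of_nonpos hwR h0
    linarith
  have hLpos : 0 < L := by
    rcases hL0.eq_or_lt with h | h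
    · rw [hl, ← h, Real.log_zero] at h0
      exact absurd h0 (lt_irrefl _)
    · exact h
  have hsq : 0 < √L := Real.sqrt_pos.2 hLpos
  have hlog : l = 2 * Real.log √L := by
    rw [Real.log_sqrt hL0]
    ring
  rcases le_or_gt (w : ℝ) √L with h1 | h1
  · have h2 := Real.log_le_sub_one_of_pos hsq
    have h3 : l ≤ 2 * √L := by linarith
    have h4 : (w : ℝ) * l ≤ √L * (2 * √L) := mul_le_mul h1 h3 h0.le hsq.le
    have h5 : √L * √L = L := Real.mul_self_sqrt hL0
    nlinarith
  · have h2 : Real.log √L ≤ Real.log w := Real.log_le_log hsq h1.le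
    have h3 : (w : ℝ) * (l / 2) ≤ w * Real.log w := by
      refine mul_le_mul_of_nonneg_left ?_ hwR
      linarith
    linarith

end Pool.Agent.Helper190.EdgeLin
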