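import Mathlib
set_option autoImplicit false
namespace Pool.Agent.Helper190.EdgeLin

theorem pow_mul_of_central {C : Type} [Group C] (a b c : C) (h : b * a = a * b * c)
    (hc : c ∈ Subgroup.center C) (n : ℕ) : b ^ n * a = a * b ^ n * c ^ n := by
  have hcc : ∀ x, x * c = c * x := Subgroup.mem_center_iff.1 hc
  induction n with
  | zero => simp
  | succ n ih =>
    have hcp : ∀ x m, x * c ^ m = c ^ m * x := fun x m =>
      ((Commute.pow_right (show Commute x c from hcc x) m)).eq
    calc b ^ (n + 1) * a = b ^ n * (b * a) := by rw [pow_succ, mul_assoc]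
      _ = (b ^ n * a) * (b * c) := by rw [h]; group
      _ = a * b ^ n * c ^ n * (b * c) := by rw [ih]
      _ = a * b ^ n * (c ^ n * b) * c := by group
      _ = a * b ^ n * (b * c ^ n) * c := by rw [hcp b n]
      _ = a * b ^ (n + 1) * c ^ (n + 1) := by rw [pow_succ, pow_succ]; group

/-- power of a product when the commutator is central -/
theorem mul_pow_of_central {C : Type} [Group C] (a b c : C) (h : b * a = a * b * c)
    (hc : c ∈ Subgroup.center C) (n : ℕ) : (a * b) ^ n = a ^ n * b ^ n * c ^ (n * (n - 1) / 2) := by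
  have hcc : ∀ x, x * c = c * x := Subgroup.mem_center_iff.1 hc
  have hcp : ∀ x m, x * c ^ m = c ^ m * x := fun x m =>
      ((Commute.pow_right (show Commute x c from hcc x) m)).eq
  induction n with
  | zero => simp
  | succ n ih =>
    have hT : (n + 1) * (n + 1 - 1) / 2 = n * (n - 1) / 2 + n := by
      have : (n + 1) * (n + 1 - 1) = n * (n - 1) + n * 2 := by
        rcases n with _ | n
        · simp
        · simp only [Nat.add_sub_cancel]
          ring
      rw [this, Nat.add_mul_div_right _ _ (by norm_num)]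
    rw [hT, pow_succ, ih]
    calc a ^ n * b ^ n * c ^ (n * (n - 1) / 2) * (a * b)
        = a ^ n * b ^ n * (c ^ (n * (n - 1) / 2) * (a * b)) := by group
      _ = a ^ n * b ^ n * ((a * b) * c ^ (n * (n - 1) / 2)) := by rw [hcp (a * b)]
      _ = a ^ n * (b ^ n * a) * b * c ^ (n * (n - 1) / 2) := by group
      _ = a ^ n * (a * b ^ n * c ^ n) * b * c ^ (n * (n - 1) / 2) := by
          rw [pow_mul_of_central a b c h hc n]
      _ = a ^ n * a * b ^ n * (c ^ n * b) * c ^ (n * (n - 1) / 2) := by group
      _ = a ^ n * a * b ^ n * (b * c ^ n) * c ^ (n * (n - 1) / 2) := by rw [hcp b n]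
      _ = (a ^ n * a) * (b ^ n * b) * (c ^ n * c ^ (n * (n - 1) / 2)) := by group
      _ = a ^ (n + 1) * b ^ (n + 1) * c ^ (n * (n - 1) / 2 + n) := by
          rw [← pow_succ, ← pow_succ, ← pow_add, add_comm n (n * (n - 1) / 2)]

theorem lemmaL_aux {C : Type} [Group C] [Finite C] (p : ℕ) [Fact p.Prime] (hC : IsPGroup p C)
    (K : Subgroup C) (hKn : K.Normal)
    (hK : ∀ k ∈ K, k ^ (p ^ 2) = 1 → k ∈ Subgroup.center C) (e : ℕ) (he : e = p ∨ e = p ^ 2)
    (m : ℕ) : ∀ H : Subgroup C, Nat.card H ≤ m → ∀ y z : C, y ∈ H → z ∈ H → y⁻¹ * z ∈ K →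
      y ^ e = z ^ e → (y⁻¹ * z) ^ e = 1 := by
  induction m with
  | zero =>
    intro H hH
    have : 0 < Nat.card H := Nat.card_pos
    omega
  | succ m ih =>
    intro H hH y z hy hz hyz h
    by_cases hzH : H ≤ Subgroup.zpowers z
    · obtain ⟨k, hk⟩ := Subgroup.mem_zpowers_iff.1 (hzH hy)
      have hcomm : Commute y⁻¹ z := by
        rw [← hk]
        exact ((Commute.refl z).zpow_left k).inv_left
      rw [hcomm.mul_pow, inv_pow, h, inv_mul_cancel]
    · -- maximal subgroup
      have hne : Subgroup.zpowers (⟨z, hz⟩ : H) ≠ ⊤ := by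
        intro htop
        apply hzH
        intro x hx
        have : (⟨x, hx⟩ : H) ∈ Subgroup.zpowers (⟨z, hz⟩ : H) := by rw [htop]; trivial
        obtain ⟨k, hk⟩ := Subgroup.mem_zpowers_iff.1 this
        refine Subgroup.mem_zpowers_iff.2 ⟨k, ?_⟩
        have := congrArg Subtype.val hk
        simpa using this
      obtain ⟨M', hM', hzM⟩ := (eq_top_or_exists_le_coatom (Subgroup.zpowers (⟨z, hz⟩ : H))).resolve_left hne
      have hpH : IsPGroup p H := hC.to_subgroup H
      have : Group.IsNilpotent H := hpH.isNilpotent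
      have hnorm : M'.Normal := Subgroup.NormalizerCondition.normal_of_coatom _
        Group.normalizerCondition_of_isNilpotent hM'
      set M := M'.map H.subtype with hM
      have hcard : Nat.card M ≤ m := by
        have h1 : Nat.card M = Nat.card M' :=
          Nat.card_congr (M'.equivMapOfInjective H.subtype H.subtype_injective).toEquiv.symm
        have h2 : Nat.card M' < Nat.card H := by
          have h3 := Subgroup.card_le_card_group M'
          refine lt_of_le_of_ne h3 fun h4 => hM'.1 ?_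
          exact Subgroup.eq_top_of_card_eq _ h4
        omega
      have hzM' : (⟨z, hz⟩ : H) ∈ M' := hzM (Subgroup.mem_zpowers _)
      have hzinM : z ∈ M := ⟨⟨z, hz⟩, hzM', rfl⟩
      have hzyM : y⁻¹ * z * y ∈ M := by
        refine ⟨(⟨y, hy⟩ : H)⁻¹ * ⟨z, hz⟩ * ⟨y, hy⟩, ?_, rfl⟩
        have := hnorm.conj_mem _ hzM' (⟨y, hy⟩ : H)⁻¹
        rwa [inv_inv] at this
      have hwK : z⁻¹ * (y⁻¹ * z * y) ∈ K := by
        have h1 : z⁻¹ * (y⁻¹ * z * y) = (y⁻¹ * z)⁻¹ * (y⁻¹ * (y⁻¹ * z) * (y⁻¹)⁻¹) := by group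
        rw [h1]
        exact K.mul_mem (K.inv_mem hyz) (hKn.conj_mem _ hyz _)
      have hpow : z ^ e = (y⁻¹ * z * y) ^ e := by
        have h1 : (y⁻¹ * z * y) ^ e = y⁻¹ * z ^ e * y := by
          have := conj_pow (i := e) (a := y⁻¹) (b := z)
          rw [inv_inv] at this
          exact this
        rw [h1, ← h]
        group
      have hwe := ih M hcard z (y⁻¹ * z * y) hzinM hzyM hwK hpow
      set w := z⁻¹ * (y⁻¹ * z * y) with hw
      have hwc : w ∈ Subgroup.center C := by
        refine hK w hwK ?_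
        rcases he with he | he
        · rw [he] at hwe
          rw [pow_two, pow_mul, hwe, one_pow]
        · rw [he] at hwe
          exact hwe
      have hwcc : ∀ x, x * w = w * x := Subgroup.mem_center_iff.1 hwc
      have hzy : z * y = y * z * w := by rw [hw]; group
      have hwc' : w⁻¹ ∈ Subgroup.center C := (Subgroup.center C).inv_mem hwc
      have hwcc' : ∀ x, x * w⁻¹ = w⁻¹ * x := Subgroup.mem_center_iff.1 hwc'
      have hzy' : z * y⁻¹ = y⁻¹ * z * w⁻¹ := by
        have h1 : y * z = z * y * w⁻¹ := by rw [hzy]; group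
        calc z * y⁻¹ = y⁻¹ * (y * z) * y⁻¹ := by group
          _ = y⁻¹ * (z * y * w⁻¹) * y⁻¹ := by rw [h1]
          _ = y⁻¹ * z * y * (w⁻¹ * y⁻¹) := by group
          _ = y⁻¹ * z * y * (y⁻¹ * w⁻¹) := by rw [hwcc' y⁻¹]
          _ = y⁻¹ * z * w⁻¹ := by group
      have hke := mul_pow_of_central y⁻¹ z w⁻¹ hzy' hwc' e
      rw [inv_pow, h, inv_mul_cancel, one_mul] at hke
      have hprime := (Fact.out : p.Prime)
      rcases hprime.eq_two_or_odd' with hp2 | hodd
      · -- p = 2
        have he2 : ∃ f, e = 2 * f ∧ (e = 2 ∨ e = 4) := by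
          rcases he with he | he
          · exact ⟨1, by rw [he, hp2], Or.inl (by rw [he, hp2])⟩
          · exact ⟨2, by rw [he, hp2]; norm_num, Or.inr (by rw [he, hp2]; norm_num)⟩
        obtain ⟨f, hf, -⟩ := he2
        have hdiv : e * (e - 1) / 2 = f * (e - 1) := by
          rw [hf, show 2 * f * (2 * f - 1) = f * (2 * f - 1) * 2 by ring]
          exact Nat.mul_div_cancel _ (by norm_num)
        rw [hdiv] at hke
        set k := y⁻¹ * z with hk
        have hk2e : (k ^ f) ^ 4 = 1 := by
          have h1 : (k ^ f) ^ 4 = (k ^ e) ^ 2 := by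
            rw [← pow_mul, ← pow_mul, hf]
            congr 1
            ring
          rw [h1, hke, ← pow_mul]
          have h2 : f * (e - 1) * 2 = e * (e - 1) := by rw [hf]; ring
          rw [h2, pow_mul, inv_pow, hwe, inv_one, one_pow]
        have hkc : k ^ f ∈ Subgroup.center C := by
          refine hK _ (K.pow_mem hyz f) ?_
          rw [hp2]
          exact hk2e
        have hkcc : ∀ x, x * k ^ f = k ^ f * x := Subgroup.mem_center_iff.1 hkc
        have hyk : y⁻¹ * k * y = k * w := by rw [hw, hk]; group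
        have h3 : y⁻¹ * k ^ f * y = (k * w) ^ f := by
          rw [← hyk]
          have := conj_pow (i := f) (a := y⁻¹) (b := k)
          rw [inv_inv] at this
          exact this.symm
        have h4 : (k * w) ^ f = k ^ f * w ^ f := (show Commute k w from hwcc k).mul_pow f
        have h5 : y⁻¹ * k ^ f * y = k ^ f := by
          rw [hkcc y⁻¹]; group
        have hwf : w ^ f = 1 := by
          have h6 : k ^ f * w ^ f = k ^ f * 1 := by rw [← h4, ← h3, h5, mul_one]
          exact mul_left_cancel h6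
        rw [hke, pow_mul, inv_pow, hwf, inv_one, one_pow]
      · have hoe : Odd e := by
          rcases he with he | he
          · rw [he]; exact hodd
          · rw [he]; exact hodd.pow
        obtain ⟨r, hr⟩ := hoe
        have hdiv : e * (e - 1) / 2 = e * r := by
          rw [hr, show (2 * r + 1) * (2 * r + 1 - 1) = (2 * r + 1) * r * 2 by
            rw [Nat.add_sub_cancel]; ring]
          exact Nat.mul_div_cancel _ (by norm_num)
        rw [hke, hdiv, pow_mul, inv_pow, hwe, inv_one, one_pow]

/-- TARGET -/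
theorem lemmaL {C : Type} [Group C] [Finite C] (p : ℕ) [Fact p.Prime] (hC : IsPGroup p C)
    (K : Subgroup C) (hKn : K.Normal)
    (hK : ∀ k ∈ K, k ^ (p ^ 2) = 1 → k ∈ Subgroup.center C) (e : ℕ) (he : e = p ∨ e = p ^ 2)
    (y z : C) (hyz : y⁻¹ * z ∈ K) (h : y ^ e = z ^ e) : (y⁻¹ * z) ^ e = 1 :=
  lemmaL_aux p hC K hKn hK e he _ ⊤ le_rfl y z trivial trivial hyz h

end Pool.Agent.Helper190.EdgeLin
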