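import Pool.Agent.Helper190.EdgeLin.PG1
set_option autoImplicit false
namespace Pool.Agent.Helper190.EdgeLin

open scoped Pointwise commutatorElement in
/-- TARGET: a maximal normal abelian subgroup A of exponent dividing p^2 contains every element of
its centralizer of order dividing p^2. -/
theorem alperin {P : Type} [Group P] [Finite P] (p : ℕ) [Fact p.Prime] (hP : IsPGroup p P) :
    ∃ A : Subgroup P, A.Normal ∧ (∀ a ∈ A, ∀ b ∈ A, a * b = b * a) ∧ (∀ a ∈ A, a ^ (p ^ 2) = 1) ∧
      ∀ y : P, (∀ a ∈ A, a * y = y * a) → y ^ (p ^ 2) = 1 → y ∈ A := by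
  classical
  obtain ⟨A, hA⟩ := Set.Finite.exists_maximal
    (Set.toFinite {A : Subgroup P | A.Normal ∧ (∀ a ∈ A, ∀ b ∈ A, a * b = b * a) ∧
      (∀ a ∈ A, a ^ (p ^ 2) = 1)})
    ⟨⊥, inferInstance, by
      intro a ha b hb
      rw [Subgroup.mem_bot] at ha hb
      rw [ha, hb], by
      intro a ha
      rw [Subgroup.mem_bot] at ha
      rw [ha, one_pow]⟩
  obtain ⟨hAn, hAc, hAe⟩ := hA.1
  refine ⟨A, hAn, hAc, hAe, ?_⟩
  have hnil : Group.IsNilpotent P := hP.isNilpotent
  obtain ⟨n, hn⟩ := Subgroup.nilpotent_iff_lowerCentralSeries.1 hnil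
  have main : ∀ m : ℕ, m ≤ n → ∀ y : P, y ∈ ((⊤ : Subgroup P).lowerCentralSeries (n - m) ⊔ A : Subgroup P) →
      (∀ a ∈ A, a * y = y * a) → y ^ (p ^ 2) = 1 → y ∈ A := by
    intro m
    induction m with
    | zero =>
      intro _ y hy _ _
      rw [Nat.sub_zero, hn, bot_sup_eq] at hy
      exact hy
    | succ m ih =>
      intro hm y hy hyc hye
      have ih' := ih (by omega)
      set i := n - (m + 1) with hi
      have hi1 : n - m = i + 1 := by omega
      rw [hi1] at ih'
      have hn1 : ((⊤ : Subgroup P).lowerCentralSeries (i + 1) ⊔ A : Subgroup P).Normal := inferInstance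
      -- conjugates differ by elements of the next term
      have hb : ∀ g : P, y⁻¹ * (g⁻¹ * y * g) ∈
          ((⊤ : Subgroup P).lowerCentralSeries (i + 1) ⊔ A : Subgroup P) := by
        intro g
        have h1 : y ∈ (((⊤ : Subgroup P).lowerCentralSeries i : Subgroup P) : Set P) * (A : Set P) := by
          rw [← Subgroup.mul_normal]; exact hy
        obtain ⟨u, hu, a, ha, rfl⟩ := Set.mem_mul.1 h1
        have h2 : u⁻¹ * g⁻¹ * u * g ∈ (⊤ : Subgroup P).lowerCentralSeries (i + 1) := by
          have h3 : ⁅u⁻¹, g⁻¹⁆ ∈ (⊤ : Subgroup P).lowerCentralSeries (i + 1) := by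
            rw [Subgroup.lowerCentralSeries_succ]
            exact Subgroup.commutator_mem_commutator (inv_mem hu) (Subgroup.mem_top _)
          have h4 : ⁅u⁻¹, g⁻¹⁆ = u⁻¹ * g⁻¹ * u * g := by
            rw [commutatorElement_def]; group
          rwa [h4] at h3
        have h5 : (u * a)⁻¹ * (g⁻¹ * (u * a) * g) = a⁻¹ * (u⁻¹ * g⁻¹ * u * g) * (g⁻¹ * a * g) := by
          group
        rw [h5]
        have h6 : g⁻¹ * a * g ∈ A := by
          have := hAn.conj_mem a ha g⁻¹
          simpa using this
        exact Subgroup.mul_mem _ (Subgroup.mul_mem _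
          (Subgroup.mem_sup_right (inv_mem ha)) (Subgroup.mem_sup_left h2))
          (Subgroup.mem_sup_right h6)
      -- the centralizer
      have hCn : (Subgroup.centralizer (A : Set P)).Normal := inferInstance
      have hyC : y ∈ Subgroup.centralizer (A : Set P) := by
        rw [Subgroup.mem_centralizer_iff]
        intro a ha
        exact hyc a ha
      have hbA : ∀ g : P, y⁻¹ * (g⁻¹ * y * g) ∈ A := by
        intro g
        have hzC : g⁻¹ * y * g ∈ Subgroup.centralizer (A : Set P) := by
          have := hCn.conj_mem y hyC g⁻¹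
          simpa using this
        have hze : (g⁻¹ * y * g) ^ (p ^ 2) = 1 := by
          have h1 : g⁻¹ * y * g = g⁻¹ * y * g⁻¹⁻¹ := by rw [inv_inv]
          rw [h1, conj_pow, hye]; group
        have hK : ∀ k ∈ ((⊤ : Subgroup P).lowerCentralSeries (i + 1) ⊔ A : Subgroup P).subgroupOf
            (Subgroup.centralizer (A : Set P)), k ^ (p ^ 2) = 1 →
            k ∈ Subgroup.center (Subgroup.centralizer (A : Set P)) := by
          intro k hk hk1
          rw [Subgroup.mem_subgroupOf] at hk
          have hkA : (k : P) ∈ A := by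
            apply ih' _ hk
            · intro a ha
              exact (Subgroup.mem_centralizer_iff.1 k.2) a ha
            · have := congrArg Subtype.val hk1
              simpa using this
          rw [Subgroup.mem_center_iff]
          intro c
          apply Subtype.ext
          exact ((Subgroup.mem_centralizer_iff.1 c.2) _ hkA).symm
        have hL := lemmaL (C := Subgroup.centralizer (A : Set P)) p (hP.to_subgroup _)
          (((⊤ : Subgroup P).lowerCentralSeries (i + 1) ⊔ A : Subgroup P).subgroupOf
            (Subgroup.centralizer (A : Set P))) inferInstance hK (p ^ 2) (Or.inr rfl)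
          ⟨y, hyC⟩ ⟨g⁻¹ * y * g, hzC⟩ (by
            rw [Subgroup.mem_subgroupOf]
            exact hb g) (by
            apply Subtype.ext
            simp only [SubmonoidClass.mk_pow]
            rw [hye, hze])
        have hbe : (y⁻¹ * (g⁻¹ * y * g)) ^ (p ^ 2) = 1 := by
          have := congrArg Subtype.val hL
          simpa using this
        apply ih' _ (hb g) _ hbe
        intro a ha
        have h1 := (Subgroup.mem_centralizer_iff.1 (Subgroup.mul_mem _ (inv_mem hyC) hzC)) a ha
        exact h1
      -- the bigger subgroup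
      have hmem : ∀ x : P, x ∈ (A ⊔ Subgroup.zpowers y : Subgroup P) ↔
          ∃ a ∈ A, ∃ j : ℤ, x = a * y ^ j := by
        intro x
        constructor
        · intro hx
          have h1 : x ∈ (A : Set P) * ((Subgroup.zpowers y : Subgroup P) : Set P) := by
            rw [← Subgroup.normal_mul]; exact hx
          obtain ⟨a, ha, w, hw, rfl⟩ := Set.mem_mul.1 h1
          obtain ⟨j, rfl⟩ := Subgroup.mem_zpowers_iff.1 hw
          exact ⟨a, ha, j, rfl⟩
        · rintro ⟨a, ha, j, rfl⟩
          exact Subgroup.mul_mem _ (Subgroup.mem_sup_left ha)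
            (Subgroup.mem_sup_right (Subgroup.zpow_mem _ (Subgroup.mem_zpowers y) j))
      have hcomm : ∀ a ∈ A, Commute a y := fun a ha => hyc a ha
      have hin : (A ⊔ Subgroup.zpowers y : Subgroup P) ∈
          {A : Subgroup P | A.Normal ∧ (∀ a ∈ A, ∀ b ∈ A, a * b = b * a) ∧
          (∀ a ∈ A, a ^ (p ^ 2) = 1)} := by
        refine ⟨⟨?_⟩, ?_, ?_⟩
        · intro x hx g
          obtain ⟨a, ha, j, rfl⟩ := (hmem x).1 hx
          have h1 : g * (a * y ^ j) * g⁻¹ = (g * a * g⁻¹) * (g * y * g⁻¹) ^ j := by
            rw [conj_zpow]; group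
          rw [h1]
          have h2 : g * y * g⁻¹ = y * (y⁻¹ * (g⁻¹⁻¹ * y * g⁻¹)) := by group
          have h3 : g * y * g⁻¹ ∈ (A ⊔ Subgroup.zpowers y : Subgroup P) := by
            rw [h2]
            exact Subgroup.mul_mem _ (Subgroup.mem_sup_right (Subgroup.mem_zpowers y))
              (Subgroup.mem_sup_left (hbA g⁻¹))
          exact Subgroup.mul_mem _ (Subgroup.mem_sup_left (hAn.conj_mem a ha g))
            (Subgroup.zpow_mem _ h3 j)
        · intro x hx x' hx'
          obtain ⟨a, ha, j, rfl⟩ := (hmem x).1 hx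
          obtain ⟨a', ha', j', rfl⟩ := (hmem x').1 hx'
          have c1 : Commute a a' := hAc a ha a' ha'
          have c2 : Commute a (y ^ j') := (hcomm a ha).zpow_right j'
          have c3 : Commute (y ^ j) a' := ((hcomm a' ha').zpow_right j).symm
          have c4 : Commute (y ^ j) (y ^ j') := (Commute.refl y).zpow_zpow j j'
          exact (c1.mul_right c2).mul_left (c3.mul_right c4)
        · intro x hx
          obtain ⟨a, ha, j, rfl⟩ := (hmem x).1 hx
          rw [((hcomm a ha).zpow_right j).mul_pow, hAe a ha, one_mul, ← zpow_natCast, ← zpow_mul,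
            mul_comm, zpow_mul, zpow_natCast, hye, one_zpow]
      have h9 := hA.2 hin le_sup_left
      exact h9 (Subgroup.mem_sup_right (Subgroup.mem_zpowers y))
  intro y hyc hye
  apply main n le_rfl y _ hyc hye
  rw [Nat.sub_self, Subgroup.lowerCentralSeries_zero, top_sup_eq]
  exact Subgroup.mem_top y

end Pool.Agent.Helper190.EdgeLin
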