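import Mathlib
set_option autoImplicit false
namespace Pool.Agent.Helper190.EdgeLin

theorem chain_gen_aux {P : Type} [Group P] [Finite P] (p : ℕ) [Fact p.Prime] (hP : IsPGroup p P) :
    ∀ (k : ℕ) (H : Subgroup P), H.index ≤ k →
    ∃ X : Finset P, H ⊔ Subgroup.closure (X : Set P) = ⊤ ∧ p ^ X.card ≤ H.index := by
  classical
  intro k
  induction k with
  | zero =>
    intro H hH
    exact absurd (Nat.le_zero.1 hH) H.index_ne_zero_of_finite
  | succ k ih =>
    intro H hH
    by_cases htop : H = ⊤
    · refine ⟨∅, by simp [htop], by simp [htop]⟩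
    · obtain ⟨x, hx⟩ : ∃ x, x ∉ H := by
        by_contra h
        push Not at h
        exact htop (eq_top_iff.2 fun x _ => h x)
      have hle : H ≤ H ⊔ Subgroup.zpowers x := le_sup_left
      have hxm : x ∈ H ⊔ Subgroup.zpowers x :=
        (le_sup_right : Subgroup.zpowers x ≤ _) (Subgroup.mem_zpowers x)
      have hmul := Subgroup.relIndex_mul_index hle
      have hne : H.relIndex (H ⊔ Subgroup.zpowers x) ≠ 1 := by
        intro h1
        rw [Subgroup.relIndex_eq_one] at h1
        exact hx (h1 hxm)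
      obtain ⟨n, hn⟩ := hP.index H
      have hdvd : H.relIndex (H ⊔ Subgroup.zpowers x) ∣ p ^ n := by
        rw [← hn]; exact Dvd.intro _ hmul
      obtain ⟨m, hm, hm'⟩ := (Nat.dvd_prime_pow (Fact.out : p.Prime)).1 hdvd
      have hm0 : m ≠ 0 := by
        rintro rfl
        exact hne (by simpa using hm')
      have hp1 : 1 < p := (Fact.out : p.Prime).one_lt
      have hple : p ≤ H.relIndex (H ⊔ Subgroup.zpowers x) := by
        rw [hm']
        calc p = p ^ 1 := (pow_one p).symm
          _ ≤ p ^ m := Nat.pow_le_pow_right (by omega) (by omega)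
      have hpos : 0 < (H ⊔ Subgroup.zpowers x).index :=
        Nat.pos_of_ne_zero (Subgroup.index_ne_zero_of_finite)
      have hle2 : p * (H ⊔ Subgroup.zpowers x).index ≤ H.index := by
        rw [← hmul]; exact Nat.mul_le_mul_right _ hple
      have hlt : (H ⊔ Subgroup.zpowers x).index ≤ k := by
        have : 2 * (H ⊔ Subgroup.zpowers x).index ≤ H.index :=
          le_trans (Nat.mul_le_mul_right _ hp1) hle2
        omega
      obtain ⟨X, hX1, hX2⟩ := ih _ hlt
      refine ⟨insert x X, ?_, ?_⟩
      · rw [eq_top_iff, ← hX1, Finset.coe_insert, sup_assoc]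
        refine sup_le_sup_left ?_ _
        refine sup_le ?_ ?_
        · rw [Subgroup.zpowers_le]
          exact Subgroup.subset_closure (Set.mem_insert _ _)
        · exact Subgroup.closure_mono (Set.subset_insert _ _)
      · calc p ^ (insert x X).card ≤ p ^ (X.card + 1) :=
              Nat.pow_le_pow_right (by omega) (Finset.card_insert_le _ _)
          _ = p * p ^ X.card := by rw [pow_succ, mul_comm]
          _ ≤ p * (H ⊔ Subgroup.zpowers x).index := Nat.mul_le_mul_left _ hX2
          _ ≤ H.index := hle2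

/-- TARGET 1 -/
theorem chain_gen {P : Type} [Group P] [Finite P] (p : ℕ) [Fact p.Prime] (hP : IsPGroup p P)
    (H : Subgroup P) : ∃ X : Finset P, H ⊔ Subgroup.closure (X : Set P) = ⊤ ∧ p ^ X.card ≤ H.index :=
  chain_gen_aux p hP H.index H le_rfl

/-- TARGET 2: p-th powers are non-generators in a finite p-group -/
theorem frattini_pow {P : Type} [Group P] [Finite P] (p : ℕ) [Fact p.Prime] (hP : IsPGroup p P)
    (H : Subgroup P) (h : H ⊔ Subgroup.closure {x : P | ∃ y : P, x = y ^ p} = ⊤) : H = ⊤ := by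
  rcases eq_top_or_exists_le_coatom H with h1 | ⟨M, hM, hHM⟩
  · exact h1
  exfalso
  have hnil : Group.IsNilpotent P := hP.isNilpotent
  have hN : M.Normal := Subgroup.NormalizerCondition.normal_of_coatom M Group.normalizerCondition_of_isNilpotent hM
  have hpow : ∀ y : P, y ^ p ∈ M := by
    intro y
    by_contra hy
    have hlt : M < M ⊔ Subgroup.zpowers (y ^ p) := by
      refine lt_of_le_of_ne le_sup_left fun he => hy ?_
      rw [he]
      exact (le_sup_right : Subgroup.zpowers (y ^ p) ≤ _) (Subgroup.mem_zpowers _)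
    have htop := hM.2 _ hlt
    have hym : y ∈ M ⊔ Subgroup.zpowers (y ^ p) := htop ▸ Subgroup.mem_top y
    rw [← SetLike.mem_coe, Subgroup.normal_mul] at hym
    obtain ⟨m, hm, z, hz, hmz⟩ := Set.mem_mul.1 hym
    obtain ⟨k, hk⟩ := Subgroup.mem_zpowers_iff.1 hz
    -- y ^ (1 - p k) ∈ M
    have h2 : y ^ (1 - (p : ℤ) * k) ∈ M := by
      have : y ^ (1 - (p : ℤ) * k) = m := by
        rw [zpow_sub, zpow_one, zpow_mul, zpow_natCast, hk, ← hmz]
        group
      rw [this]; exact hm
    obtain ⟨n, hn⟩ := hP y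
    have h3 : y ^ ((p ^ n : ℕ) : ℤ) ∈ M := by
      rw [zpow_natCast, hn]; exact M.one_mem
    have hcop : IsCoprime (1 - (p : ℤ) * k) ((p ^ n : ℕ) : ℤ) := by
      push_cast
      refine IsCoprime.pow_right ?_
      exact ⟨1, k, by ring⟩
    obtain ⟨a, b, hab⟩ := hcop
    have h4 : y ∈ M := by
      have h5 : y = (y ^ (1 - (p : ℤ) * k)) ^ a * (y ^ ((p ^ n : ℕ) : ℤ)) ^ b := by
        rw [← zpow_mul, ← zpow_mul, ← zpow_add, mul_comm _ a, mul_comm _ b, hab, zpow_one]
      rw [h5]
      exact M.mul_mem (M.zpow_mem h2 a) (M.zpow_mem h3 b)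
    exact hy (M.pow_mem h4 p)
  have hle : H ⊔ Subgroup.closure {x : P | ∃ y : P, x = y ^ p} ≤ M := by
    refine sup_le hHM ((Subgroup.closure_le _).2 ?_)
    rintro x ⟨y, rfl⟩
    exact hpow y
  rw [h, top_le_iff] at hle
  exact hM.1 hle

/-- TARGET 3: if p-th powers separate cosets of the subgroup E, the p-th powers generate a subgroup of index at most |E| -/
theorem index_pow_le {C : Type} [Group C] [Finite C] (p : ℕ) (E : Subgroup C)
    (h : ∀ y z : C, y ^ p = z ^ p → y⁻¹ * z ∈ E) :
    (Subgroup.closure {x : C | ∃ y : C, x = y ^ p}).index ≤ Nat.card E := by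
  set D := Subgroup.closure {x : C | ∃ y : C, x = y ^ p} with hD
  let s : C → C := fun y => Classical.epsilon (fun z => z ^ p = y ^ p)
  have hs : ∀ y, (s y) ^ p = y ^ p := fun y =>
    Classical.epsilon_spec (p := fun z => z ^ p = y ^ p) ⟨y, rfl⟩
  have hs2 : ∀ y z, y ^ p = z ^ p → s y = s z := by
    intro y z hyz
    simp only [s, hyz]
  let F : C → D × E := fun y => (⟨y ^ p, Subgroup.subset_closure ⟨y, rfl⟩⟩,
    ⟨(s y)⁻¹ * y, h _ _ (hs y)⟩)
  have hF : Function.Injective F := by
    intro y z hyz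
    have h1 : y ^ p = z ^ p := congrArg Subtype.val (congrArg Prod.fst hyz)
    have h2 : (s y)⁻¹ * y = (s z)⁻¹ * z := congrArg Subtype.val (congrArg Prod.snd hyz)
    rw [hs2 y z h1] at h2
    exact mul_left_cancel h2
  have hcard := Nat.card_le_card_of_injective F hF
  rw [Nat.card_prod, ← D.card_mul_index] at hcard
  exact Nat.le_of_mul_le_mul_left hcard Nat.card_pos

/-- TARGET 4: bound for the index of the centralizer of a normal subgroup generated by X -/
theorem index_centralizer_le {P : Type} [Group P] [Finite P] (A : Subgroup P) (hA : A.Normal)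
    (X : Finset P) (hX : Subgroup.closure (X : Set P) = A) :
    (Subgroup.centralizer (A : Set P)).index ≤ Nat.card A ^ X.card := by
  have hXA : ∀ x ∈ X, x ∈ A := fun x hx => hX ▸ Subgroup.subset_closure hx
  let f : P → (X → A) := fun g x => ⟨g * x.1 * g⁻¹, hA.conj_mem _ (hXA _ x.2) g⟩
  have hf : ∀ g g' : P, f g = f g' → g⁻¹ * g' ∈ Subgroup.centralizer (A : Set P) := by
    intro g g' hgg
    have h1 : ∀ x ∈ X, x ∈ Subgroup.centralizer ({g⁻¹ * g'} : Set P) := by
      intro x hx
      have h2 : g * x * g⁻¹ = g' * x * g'⁻¹ := congrArg Subtype.val (congrFun hgg ⟨x, hx⟩)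
      rw [Subgroup.mem_centralizer_iff]
      intro z hz
      rw [Set.mem_singleton_iff.1 hz]
      have h3 : g * x = g' * x * g'⁻¹ * g := by rw [← h2]; group
      calc g⁻¹ * g' * x = g⁻¹ * (g' * x * g'⁻¹ * g) * (g⁻¹ * g') := by group
        _ = g⁻¹ * (g * x) * (g⁻¹ * g') := by rw [← h3]
        _ = x * (g⁻¹ * g') := by group
    have h2 : A ≤ Subgroup.centralizer ({g⁻¹ * g'} : Set P) := by
      rw [← hX, Subgroup.closure_le]
      exact h1
    rw [Subgroup.mem_centralizer_iff]
    intro a ha
    have h3 := Subgroup.mem_centralizer_iff.1 (h2 ha) (g⁻¹ * g') rfl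
    exact h3.symm
  let q : P ⧸ Subgroup.centralizer (A : Set P) → (X → A) := fun c => f c.out
  have hq : Function.Injective q := by
    intro c c' hcc
    have := hf _ _ hcc
    rw [← QuotientGroup.eq, QuotientGroup.out_eq', QuotientGroup.out_eq'] at this
    exact this
  have := Nat.card_le_card_of_injective q hq
  rw [Subgroup.index]
  refine this.trans (le_of_eq ?_)
  rw [Nat.card_fun]
  simp

end Pool.Agent.Helper190.EdgeLin
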