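import Pool.Agent.Helper190.EdgeLin.PG2
import Pool.Agent.Helper190.EdgeLin.PG3
set_option autoImplicit false
namespace Pool.Agent.Helper190.EdgeLin

theorem card_le_of_pow_le {p a b : ℕ} (hp : 1 < p) (h : p ^ a ≤ p ^ b) : a ≤ b :=
  (Nat.pow_le_pow_iff_right hp).1 h

/-- Every finite `p`-group has an elementary abelian normal subgroup of order `p ^ r` and is generated by
at most `5 r ^ 2` elements. -/
theorem ptheory {P : Type} [Group P] [Finite P] (p : ℕ) [hp : Fact p.Prime] (hP : IsPGroup p P) :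
    ∃ (r : ℕ) (E : Subgroup P) (X : Finset P), E.Normal ∧ (∀ a ∈ E, a ^ p = 1) ∧
      (∀ a ∈ E, ∀ b ∈ E, a * b = b * a) ∧ Nat.card E = p ^ r ∧ X.card ≤ 5 * r ^ 2 ∧
      Subgroup.closure (X : Set P) = ⊤ := by
  classical
  have hp1 : 1 < p := hp.out.one_lt
  obtain ⟨A, hAn, hAc, hAe, hAm⟩ := alperin p hP
  let E : Subgroup P :=
    { carrier := {a | a ∈ A ∧ a ^ p = 1}
      one_mem' := ⟨one_mem _, one_pow _⟩
      mul_mem' := by
        rintro a b ⟨ha, ha'⟩ ⟨hb, hb'⟩
        refine ⟨mul_mem ha hb, ?_⟩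
        have hc : Commute a b := hAc a ha b hb
        rw [hc.mul_pow, ha', hb', one_mul]
      inv_mem' := by
        rintro a ⟨ha, ha'⟩
        exact ⟨inv_mem ha, by rw [inv_pow, ha', inv_one]⟩ }
  have hE : ∀ a, a ∈ E ↔ a ∈ A ∧ a ^ p = 1 := fun a => Iff.rfl
  have hEn : E.Normal := by
    constructor
    intro n hn g
    rw [hE] at hn ⊢
    refine ⟨hAn.conj_mem n hn.1 g, ?_⟩
    rw [conj_pow, hn.2, mul_one, mul_inv_cancel]
  have hEA : E ≤ A := fun a ha => ha.1
  obtain ⟨r, hr⟩ := IsPGroup.iff_card.1 (hP.to_subgroup E)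
  -- the order of A
  let φ : A →* P :=
    { toFun := fun a => (a : P) ^ p
      map_one' := by simp
      map_mul' := by
        intro a b
        have hc : Commute (a : P) (b : P) := hAc a a.2 b b.2
        show ((a : P) * (b : P)) ^ p = _
        rw [hc.mul_pow] }
  have hφr : φ.range ≤ E := by
    rintro _ ⟨a, rfl⟩
    rw [hE]
    refine ⟨pow_mem a.2 _, ?_⟩
    show ((a : P) ^ p) ^ p = 1
    rw [← pow_mul, ← pow_two]; exact hAe a a.2
  have hφk : Nat.card φ.ker ≤ Nat.card E := by
    refine Nat.card_le_card_of_injective (fun x : φ.ker => (⟨(x : A), (x : A).2, ?_⟩ : E)) ?_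
    · have := x.2
      rw [MonoidHom.mem_ker] at this
      exact this
    · intro x y hxy
      have : ((x : A) : P) = ((y : A) : P) := congrArg (fun w : E => (w : P)) hxy
      exact Subtype.ext (Subtype.ext this)
  have hA2 : Nat.card A ≤ p ^ (2 * r) := by
    have h1 := φ.ker.card_mul_index
    rw [Subgroup.index_ker] at h1
    have h2 : Nat.card φ.range ≤ Nat.card E := Subgroup.card_le_of_le hφr
    rw [← h1, two_mul, pow_add]
    rw [hr] at hφk h2
    exact Nat.mul_le_mul hφk h2
  -- generators of A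
  obtain ⟨XA, hXA, hXAc⟩ := chain_gen p (hP.to_subgroup A) ⊥
  have hXAcard : XA.card ≤ 2 * r := by
    rw [Subgroup.index_bot] at hXAc
    exact card_le_of_pow_le hp1 (hXAc.trans hA2)
  rw [bot_sup_eq] at hXA
  have hXA' : Subgroup.closure ((XA.image (fun x : A => (x : P)) : Finset P) : Set P) = A := by
    have h1 : ((XA.image (fun x : A => (x : P)) : Finset P) : Set P) = A.subtype '' (XA : Set A) := by
      simp
    rw [h1, ← MonoidHom.map_closure, hXA, ← MonoidHom.range_eq_map, Subgroup.range_subtype]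
  have hCi := index_centralizer_le A hAn _ hXA'
  have hCi2 : (Subgroup.centralizer (A : Set P)).index ≤ p ^ (4 * r ^ 2) := by
    refine hCi.trans ?_
    have h1 : (XA.image (fun x : A => (x : P))).card ≤ 2 * r := Finset.card_image_le.trans hXAcard
    calc Nat.card A ^ (XA.image (fun x : A => (x : P))).card
        ≤ Nat.card A ^ (2 * r) := Nat.pow_le_pow_right Nat.card_pos h1
      _ ≤ (p ^ (2 * r)) ^ (2 * r) := Nat.pow_le_pow_left hA2 _
      _ = p ^ (4 * r ^ 2) := by rw [← pow_mul]; congr 1; ring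
  set C := Subgroup.centralizer (A : Set P) with hC
  have hCmem : ∀ y, y ∈ C ↔ ∀ a ∈ A, a * y = y * a := by
    intro y
    rw [hC, Subgroup.mem_centralizer_iff]
    exact Iff.rfl
  obtain ⟨X1, hX1, hX1c⟩ := chain_gen p hP C
  have hX1card : X1.card ≤ 4 * r ^ 2 := card_le_of_pow_le hp1 (hX1c.trans hCi2)
  -- generators of C
  have hCp : IsPGroup p C := hP.to_subgroup C
  have hsep : ∀ y z : C, y ^ p = z ^ p → y⁻¹ * z ∈ E.subgroupOf C := by
    intro y z hyz
    have hcen : ∀ k : C, k ^ (p ^ 2) = 1 → (k : P) ∈ A := by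
      intro k hk
      refine hAm k ((hCmem k).1 k.2) ?_
      have := congrArg Subtype.val hk
      simpa using this
    have h1 : (y⁻¹ * z) ^ p = 1 := by
      refine lemmaL p hCp ⊤ inferInstance ?_ p (Or.inl rfl) y z (Subgroup.mem_top _) hyz
      intro k _ hk
      rw [Subgroup.mem_center_iff]
      intro g
      apply Subtype.ext
      show (g : P) * (k : P) = (k : P) * (g : P)
      exact ((hCmem g).1 g.2 k (hcen k hk)).symm
    rw [Subgroup.mem_subgroupOf, hE]
    refine ⟨hcen _ ?_, ?_⟩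
    · rw [pow_two, pow_mul, h1, one_pow]
    · have := congrArg Subtype.val h1
      simpa using this
  have hQ := index_pow_le p (E.subgroupOf C) hsep
  have hQ2 : Nat.card (E.subgroupOf C) ≤ p ^ r := by
    rw [← hr]
    refine Nat.card_le_card_of_injective (fun x : E.subgroupOf C => (⟨((x : C) : P), x.2⟩ : E)) ?_
    intro x y hxy
    have : ((x : C) : P) = ((y : C) : P) := congrArg (fun w : E => (w : P)) hxy
    exact Subtype.ext (Subtype.ext this)
  obtain ⟨X2, hX2, hX2c⟩ := chain_gen p hCp (Subgroup.closure {x : C | ∃ y : C, x = y ^ p})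
  have hX2card : X2.card ≤ r := card_le_of_pow_le hp1 ((hX2c.trans hQ).trans hQ2)
  have hX2' : Subgroup.closure (X2 : Set C) = ⊤ := by
    apply frattini_pow p hCp
    rw [sup_comm]; exact hX2
  refine ⟨r, E, X1 ∪ X2.image (fun x : C => (x : P)), hEn, fun a ha => ha.2,
    fun a ha b hb => hAc a ha.1 b hb.1, hr, ?_, ?_⟩
  · refine (Finset.card_union_le _ _).trans ?_
    have := (Finset.card_image_le (s := X2) (f := fun x : C => (x : P))).trans hX2card
    nlinarith [Nat.le_self_pow (n := 2) (by norm_num) r]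
  · rw [Finset.coe_union, Subgroup.closure_union, ← hX1, sup_comm]
    congr 1
    have h1 : ((X2.image (fun x : C => (x : P)) : Finset P) : Set P) = C.subtype '' (X2 : Set C) := by
      simp
    rw [h1, ← MonoidHom.map_closure, hX2', ← MonoidHom.range_eq_map, Subgroup.range_subtype]

end Pool.Agent.Helper190.EdgeLin
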