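import Mathlib
set_option autoImplicit false
namespace Pool.Agent.Helper190.EdgeLin

/-- TARGET: an elementary abelian group of order p^r is decomposed by three projections of small range -/
theorem projections {E : Type} [CommGroup E] [Finite E] (p r : ℕ) [Fact p.Prime] (hE : ∀ a : E, a ^ p = 1)
    (hcard : Nat.card E = p ^ r) :
    ∃ π : Fin 3 → (E →* E), (∀ e, π 0 e * π 1 e * π 2 e = e) ∧
      ∀ j, Nat.card (π j).range ≤ p ^ ((r + 2) / 3) := by
  classical
  letI : Module (ZMod p) (Additive E) := AddCommGroup.zmodModule (n := p) (fun x => hE x.toMul)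
  haveI : Finite (Additive E) := inferInstanceAs (Finite E)
  haveI : Module.Finite (ZMod p) (Additive E) := Module.Finite.of_finite
  have hr : Module.finrank (ZMod p) (Additive E) = r := by
    have h := Module.natCard_eq_pow_finrank (K := ZMod p) (V := Additive E)
    have h2 : Nat.card (Additive E) = p ^ r := hcard
    rw [h2, Nat.card_zmod] at h
    exact (Nat.pow_right_injective (Fact.out : p.Prime).two_le h).symm
  let b := Module.finBasisOfFinrankEq (ZMod p) (Additive E) hr
  let e : Additive E ≃ₗ[ZMod p] (Fin r → ZMod p) := b.equivFun
  let mask : Fin 3 → ((Fin r → ZMod p) →+ (Fin r → ZMod p)) := fun j =>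
    { toFun := fun f i => if i.val % 3 = j.val then f i else 0
      map_zero' := by funext i; simp
      map_add' := by
        intro f g
        funext i
        by_cases h : i.val % 3 = j.val <;> simp [h] }
  let q : Fin 3 → (Additive E →+ Additive E) := fun j =>
    (e.symm.toLinearMap.toAddMonoidHom.comp (mask j)).comp e.toLinearMap.toAddMonoidHom
  have hq : ∀ j x i, e (q j x) i = if i.val % 3 = j.val then e x i else 0 := by
    intro j x i
    have : e (q j x) = mask j (e x) := by
      simp [q]
    rw [this]
    rfl
  let P : Fin 3 → (E →* E) := fun j =>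
    { toFun := fun a => (q j (Additive.ofMul a)).toMul
      map_one' := by
        change (q j (0 : Additive E)).toMul = 1
        rw [map_zero]; rfl
      map_mul' := by
        intro a b
        change (q j (Additive.ofMul a + Additive.ofMul b)).toMul = _
        rw [map_add]; rfl }
  refine ⟨P, ?_, ?_⟩
  · intro a
    have h : q 0 (Additive.ofMul a) + q 1 (Additive.ofMul a) + q 2 (Additive.ofMul a) =
        Additive.ofMul a := by
      apply e.injective
      funext i
      rw [map_add, map_add, Pi.add_apply, Pi.add_apply, hq, hq, hq]
      have h3 : i.val % 3 = 0 ∨ i.val % 3 = 1 ∨ i.val % 3 = 2 := by omega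
      rcases h3 with h3 | h3 | h3 <;> simp [h3]
    exact h
  · intro j
    let c : (P j).range → ({i : Fin r // i.val % 3 = j.val} → ZMod p) :=
      fun x i => e (Additive.ofMul (x : E)) i.1
    have hc : Function.Injective c := by
      rintro ⟨x, hx⟩ ⟨y, hy⟩ hxy
      apply Subtype.ext
      obtain ⟨x', hx'⟩ := hx
      obtain ⟨y', hy'⟩ := hy
      have h1 : ∀ i : Fin r, e (Additive.ofMul x) i = e (Additive.ofMul y) i := by
        intro i
        by_cases hi : i.val % 3 = j.val
        · exact congrFun hxy ⟨i, hi⟩
        · have e1 : Additive.ofMul x = q j (Additive.ofMul x') := hx'.symm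
          have e2 : Additive.ofMul y = q j (Additive.ofMul y') := hy'.symm
          rw [e1, e2, hq, hq, if_neg hi, if_neg hi]
      exact e.injective (funext h1)
    have h1 := Nat.card_le_card_of_injective c hc
    refine h1.trans ?_
    rw [Nat.card_fun, Nat.card_zmod]
    refine Nat.pow_le_pow_right (Fact.out : p.Prime).pos ?_
    let d : {i : Fin r // i.val % 3 = j.val} → Fin ((r + 2) / 3) := fun i =>
      ⟨i.1.val / 3, by have := i.1.isLt; omega⟩
    have hd : Function.Injective d := by
      rintro ⟨x, hx⟩ ⟨y, hy⟩ hxy
      apply Subtype.ext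
      apply Fin.ext
      have h2 : x.val / 3 = y.val / 3 := congrArg Fin.val hxy
      have hx' : x.val % 3 = j.val := hx
      have hy' : y.val % 3 = j.val := hy
      show x.val = y.val
      omega
    have := Nat.card_le_card_of_injective d hd
    rwa [Nat.card_fin] at this

end Pool.Agent.Helper190.EdgeLin
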