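import Pool.Agent.Helper190.EdgeLin.Engine
import Pool.Agent.Helper190.EdgeLin.Ext
import Pool.Agent.Helper190.EdgeLin.PTheory
import Pool.Agent.Helper190.EdgeLin.Proj
import Pool.Agent.Helper190.EdgeLin.Hall
set_option autoImplicit false
namespace Pool.Agent.Helper190.EdgeLin

def Rep (G : Type) [Group G] (K : ℕ) : Prop :=
  ∃ D : Diag G, D.B D.hub = ⊥ ∧ Piece D ⊤ ∧ cost D ≤ K * Nat.card G

theorem num1 (r : ℕ) : 5 * r ^ 2 ≤ 160 * 2 ^ (r - 2 * ((r + 2) / 3)) := by
  have hA : ∀ m : ℕ, 5 * (3 * m + 2) ^ 2 ≤ 160 * 2 ^ m := by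
    intro m
    induction m with
    | zero => norm_num
    | succ m ih =>
      rcases Nat.lt_or_ge m 3 with h | h
      · interval_cases m <;> norm_num
      · have e : 160 * 2 ^ (m + 1) = 2 * (160 * 2 ^ m) := by ring
        rw [e]
        refine le_trans ?_ (Nat.mul_le_mul_left 2 ih)
        nlinarith
  have hB : ∀ m : ℕ, 5 * (3 * (m + 1) + 1) ^ 2 ≤ 160 * 2 ^ m := by
    intro m
    induction m with
    | zero => norm_num
    | succ m ih =>
      rcases Nat.lt_or_ge m 3 with h | h
      · interval_cases m <;> norm_num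
      · have e : 160 * 2 ^ (m + 1) = 2 * (160 * 2 ^ m) := by ring
        rw [e]
        refine le_trans ?_ (Nat.mul_le_mul_left 2 ih)
        nlinarith
  obtain ⟨m, s, hs, rfl⟩ : ∃ m s, s < 3 ∧ r = 3 * m + s := ⟨r / 3, r % 3, Nat.mod_lt _ (by norm_num), by omega⟩
  interval_cases s
  · have e : 3 * m + 0 - 2 * ((3 * m + 0 + 2) / 3) = m := by omega
    rw [e]
    refine le_trans ?_ (hA m)
    gcongr <;> omega
  · rcases Nat.eq_zero_or_pos m with rfl | hm
    · norm_num
    · obtain ⟨m', rfl⟩ : ∃ m', m = m' + 1 := ⟨m - 1, by omega⟩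
      have e : 3 * (m' + 1) + 1 - 2 * ((3 * (m' + 1) + 1 + 2) / 3) = m' := by omega
      rw [e]
      exact hB m'
  · have e : 3 * m + 2 - 2 * ((3 * m + 2 + 2) / 3) = m := by omega
    rw [e]
    exact hA m

theorem card_inf_ker {E : Type} [Group E] [Finite E] (p r t : ℕ) (hp : 1 < p) (hcard : Nat.card E = p ^ r)
    (f g : E →* E) (hf : Nat.card f.range ≤ p ^ t) (hg : Nat.card g.range ≤ p ^ t) :
    p ^ (r - 2 * t) ≤ Nat.card (f.ker ⊓ g.ker : Subgroup E) := by
  have h1 : (f.ker ⊓ g.ker).index ≤ p ^ (2 * t) := by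
    refine Subgroup.index_inf_le.trans ?_
    rw [Subgroup.index_ker, Subgroup.index_ker, two_mul, pow_add]
    exact Nat.mul_le_mul hf hg
  have h2 := (f.ker ⊓ g.ker).card_mul_index
  rcases Nat.lt_or_ge r (2 * t) with h | h
  · rw [Nat.sub_eq_zero_of_le h.le, pow_zero]; exact Nat.card_pos
  · have h3 : p ^ r = p ^ (r - 2 * t) * p ^ (2 * t) := by rw [← pow_add]; congr 1; omega
    rw [hcard, h3] at h2
    by_contra hlt
    push Not at hlt
    have h4 : 0 < p ^ (2 * t) := pow_pos (by omega) _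
    have h5 : Nat.card (f.ker ⊓ g.ker : Subgroup E) * (f.ker ⊓ g.ker).index
        ≤ Nat.card (f.ker ⊓ g.ker : Subgroup E) * p ^ (2 * t) := Nat.mul_le_mul_left _ h1
    have h6 : Nat.card (f.ker ⊓ g.ker : Subgroup E) * p ^ (2 * t) < p ^ (r - 2 * t) * p ^ (2 * t) :=
      Nat.mul_lt_mul_of_pos_right hlt h4
    omega

theorem rep_pgroup {P : Type} [Group P] [Finite P] (p : ℕ) [hp : Fact p.Prime] (hP : IsPGroup p P) :
    Rep P 5287 := by
  classical
  obtain ⟨r, E, X, hEn, hEp, hEc, hEr, hX, hXt⟩ := ptheory p hP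
  let _ : CommGroup E := { (inferInstance : Group E) with
    mul_comm := fun a b => Subtype.ext (hEc a a.2 b b.2) }
  have hEp' : ∀ a : E, a ^ p = 1 := fun a => Subtype.ext (by simpa using hEp a a.2)
  obtain ⟨π, hπ, hπr⟩ := projections p r hEp' hEr
  set t := (r + 2) / 3 with ht
  let c : P → (E →* E) := fun y => (MulAut.conjNormal y⁻¹ : MulAut E).toMonoidHom
  have hc : ∀ y e, ((c y e : E) : P) = y⁻¹ * e * y := by
    intro y e
    show ((MulAut.conjNormal y⁻¹ e : E) : P) = _
    rw [MulAut.conjNormal_apply, inv_inv]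
  let f1 : X → Fin 3 → (E →* E) := fun y i => (π i).comp ((c y).comp (π 0))
  let f2 : X → Fin 3 → (E →* E) := fun y i => (π i).comp ((c y).comp (π 0 * π 1))
  have hf1 : ∀ y i, Nat.card (f1 y i).range ≤ p ^ t := by
    intro y i
    refine (Subgroup.card_le_of_le ?_).trans (hπr i)
    rintro _ ⟨e, rfl⟩
    exact ⟨_, rfl⟩
  have hf2 : ∀ y i, Nat.card (f2 y i).range ≤ p ^ t := by
    intro y i
    refine (Subgroup.card_le_of_le ?_).trans (hπr i)
    rintro _ ⟨e, rfl⟩
    exact ⟨_, rfl⟩
  let B : Fin 3 → Subgroup P := fun j => ((π j).ker).map E.subtype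
  let M1 : X → Fin 3 → Subgroup P := fun y i => ((f1 y i).ker).map E.subtype
  let M2 : X → Fin 3 → Subgroup P := fun y i => ((f2 y i).ker).map E.subtype
  have hinj : Function.Injective E.subtype := E.subtype_injective
  have hmapinf : ∀ K K' : Subgroup E, K.map E.subtype ⊓ K'.map E.subtype = (K ⊓ K').map E.subtype :=
    fun K K' => (Subgroup.map_inf K K' _ hinj).symm
  have hcardmap : ∀ K : Subgroup E, Nat.card (K.map E.subtype) = Nat.card K := fun K =>
    (Nat.card_congr (K.equivMapOfInjective E.subtype hinj).toEquiv).symm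
  have h0 : ∀ y i, B 0 ≤ M1 y i := by
    intro y i
    apply Subgroup.map_mono
    intro e he
    rw [MonoidHom.mem_ker] at he ⊢
    show π i (c y (π 0 e)) = 1
    rw [he, map_one, map_one]
  have h1 : ∀ y i, M1 y i ⊓ B 1 ≤ M2 y i := by
    intro y i
    rw [hmapinf]
    apply Subgroup.map_mono
    rintro e ⟨he1, he2⟩
    have he1' : π i (c y (π 0 e)) = 1 := he1
    have he2' : π 1 e = 1 := he2
    rw [MonoidHom.mem_ker]
    show π i (c y (π 0 e * π 1 e)) = 1
    rw [he2', mul_one, he1']
  have h2 : ∀ (y : X) i, ∀ b ∈ M2 y i ⊓ B 2, ((y : P))⁻¹ * b * (y : P) ∈ B i := by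
    intro y i b hb
    rw [hmapinf] at hb
    obtain ⟨e, ⟨he1, he2⟩, rfl⟩ := hb
    have he1' : π i (c y (π 0 e * π 1 e)) = 1 := he1
    have he2' : π 2 e = 1 := he2
    have he3 := hπ e
    rw [he2', mul_one] at he3
    rw [he3] at he1'
    refine ⟨c y e, he1', ?_⟩
    exact hc y e
  have hbot : B 0 ⊓ B 1 ⊓ B 2 = ⊥ := by
    show (π 0).ker.map E.subtype ⊓ (π 1).ker.map E.subtype ⊓ (π 2).ker.map E.subtype = ⊥
    rw [hmapinf, hmapinf, Subgroup.map_eq_bot_iff_of_injective _ hinj, eq_bot_iff]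
    rintro e ⟨⟨he0, he1⟩, he2⟩
    have he0' : π 0 e = 1 := he0
    have he1' : π 1 e = 1 := he1
    have he2' : π 2 e = 1 := he2
    have he3 := hπ e
    rw [he0', he1', he2', mul_one, mul_one] at he3
    rw [Subgroup.mem_bot, he3]
  have hXr : Subgroup.closure (Set.range (fun y : X => (y : P))) = ⊤ := by
    rw [Subtype.range_coe_subtype]
    exact hXt
  have hp1 : 1 < p := hp.out.one_lt
  set S := p ^ (r - 2 * t) with hS
  have hSpos : 0 < S := pow_pos (by omega) _
  have hcost := Eng_cost (fun y : X => (y : P)) B M1 M2 h0 h1 h2 S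
    (by
      intro j
      show S ≤ Nat.card ((π j).ker.map E.subtype)
      rw [hcardmap]
      refine (card_inf_ker p r t hp1 hEr (π j) (π j) (hπr j) (hπr j)).trans ?_
      rw [inf_idem])
    (by
      intro y i
      show S ≤ Nat.card ((f1 y i).ker.map E.subtype ⊓ (π 1).ker.map E.subtype : Subgroup P)
      rw [hmapinf, hcardmap]
      exact card_inf_ker p r t hp1 hEr _ _ (hf1 y i) (hπr 1))
    (by
      intro y i
      show S ≤ Nat.card ((f2 y i).ker.map E.subtype ⊓ (π 2).ker.map E.subtype : Subgroup P)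
      rw [hmapinf, hcardmap]
      exact card_inf_ker p r t hp1 hEr _ _ (hf2 y i) (hπr 2))
  refine ⟨Eng (fun y : X => (y : P)) B M1 M2 h0 h1 h2, rfl, Eng_piece _ B M1 M2 h0 h1 h2 hbot hXr, ?_⟩
  have hX2 : Fintype.card X ≤ 160 * S := by
    rw [Fintype.card_coe]
    refine hX.trans ((num1 r).trans ?_)
    exact Nat.mul_le_mul_left _ (Nat.pow_le_pow_left hp1 _)
  have h3 : S * cost (Eng (fun y : X => (y : P)) B M1 M2 h0 h1 h2) ≤ S * (5287 * Nat.card P) := by
    refine hcost.trans ?_
    have : 4 * S + 3 + 33 * Fintype.card X ≤ 5287 * S := by omega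
    calc Nat.card P * (4 * S + 3 + 33 * Fintype.card X) ≤ Nat.card P * (5287 * S) :=
          Nat.mul_le_mul_left _ this
      _ = S * (5287 * Nat.card P) := by ring
  exact Nat.le_of_mul_le_mul_left h3 hSpos

theorem rep_soluble (L : Type) [Group L] [Finite L] (hs : Group.IsSolvable L) : Rep L 10584 := by
  classical
  suffices H : ∀ n : ℕ, ∀ (L : Type) [Group L] [Finite L], Group.IsSolvable L → Nat.card L = n →
      Rep L 10584 from H _ L hs rfl
  intro n
  induction n using Nat.strong_induction_on with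
  | _ n ih =>
  intro L _ _ hs hn
  rcases subsingleton_or_nontrivial L with hsub | hnt
  · refine ⟨One ⊥, rfl, ?_, ?_⟩
    · have h := One_piece (⊥ : Subgroup L)
      have e : (⊤ : Subgroup L) = ⊥ := Subsingleton.elim _ _
      rw [e]; exact h
    · rw [One_cost, Subgroup.index_bot]; omega
  · obtain ⟨q, hq, N, hN, hN1, hNq⟩ := exists_normal_pgroup L hs hnt
    have : Fact q.Prime := ⟨hq⟩
    have := hN
    -- the quotient
    have hcN : 2 ≤ Nat.card N := by
      have : Nontrivial N := (Subgroup.nontrivial_iff_ne_bot N).2 hN1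
      exact Finite.one_lt_card
    have hcard : Nat.card (L ⧸ N) * Nat.card N = Nat.card L := by
      rw [mul_comm]; exact N.card_mul_index
    have hlt : Nat.card (L ⧸ N) < n := by
      rw [← hn, ← hcard]
      have : 0 < Nat.card (L ⧸ N) := Nat.card_pos
      nlinarith
    have hsQ : Group.IsSolvable (L ⧸ N) := by
      have := hs
      infer_instance
    obtain ⟨DQ, hDQ1, hDQ2, hDQ3⟩ := ih _ hlt (L ⧸ N) hsQ rfl
    -- the Sylow subgroup
    obtain ⟨P⟩ : Nonempty (Sylow q L) := inferInstance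
    obtain ⟨DP, hDP1, hDP2, hDP3⟩ := rep_pgroup q (P := (P : Subgroup L)) P.isPGroup'
    obtain ⟨H, hHc, hHi⟩ := hall_complement q hq L hs
    have hPH := sylow_sup_hall q L P H hHi
    have hHN : H ⊓ N = ⊥ := by
      obtain ⟨k, hk⟩ := IsPGroup.iff_card.1 hNq
      have hcop : (Nat.card H).Coprime (Nat.card N) := by
        rw [hk]
        exact Nat.Coprime.pow_right _ hHc
      exact disjoint_iff.1 (Subgroup.disjoint_of_coprime_natCard hcop)
    have hsurj : Function.Surjective (QuotientGroup.mk' N) := QuotientGroup.mk'_surjective N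
    let DN' := Infl (QuotientGroup.mk' N) hsurj DQ
    let DP' := Ind (P : Subgroup L).subtype DP
    have hinj : Function.Injective (P : Subgroup L).subtype := Subgroup.subtype_injective _
    have hN' : DN'.B DN'.hub = N := by
      show (DQ.B DQ.hub).comap _ = N
      rw [hDQ1, MonoidHom.comap_bot, QuotientGroup.ker_mk']
    have hP' : DP'.B DP'.hub = ⊥ := by
      show (DP.B DP.hub).map _ = ⊥
      rw [hDP1, Subgroup.map_bot]
    have hPp : Piece DP' (P : Subgroup L) := by
      have := Ind_piece _ hinj DP hDP2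
      rw [Subgroup.range_subtype] at this
      exact this
    refine ⟨_, rfl, Ext_piece N (P : Subgroup L) H DN' DP' hN' (Infl_piece _ hsurj DQ hDQ2) hP' hPp
      hHN hPH, ?_⟩
    rw [Amal_cost, Fintype.card_fin, Fin.sum_univ_three]
    show Nat.card L * (1 + 3) + (cost DN' + cost DP' + cost (One H)) ≤ 10584 * Nat.card L
    have c1 : cost DN' = cost DQ := Infl_cost _ hsurj DQ
    have c2 : cost DP' = cost DP * (P : Subgroup L).index := by
      have := Ind_cost _ hinj DP
      rw [Subgroup.range_subtype] at this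
      exact this
    have c3 : cost (One H) ≤ Nat.card L := by
      rw [One_cost]
      exact Nat.le_of_dvd Nat.card_pos (Subgroup.index_dvd_card H)
    have c4 : cost DP * (P : Subgroup L).index ≤ 5287 * Nat.card L := by
      calc cost DP * (P : Subgroup L).index ≤ (5287 * Nat.card (P : Subgroup L)) * (P : Subgroup L).index :=
            Nat.mul_le_mul_right _ hDP3
        _ = 5287 * Nat.card L := by rw [mul_assoc, Subgroup.card_mul_index]
    have c5 : 2 * Nat.card (L ⧸ N) ≤ Nat.card L := by rw [← hcard]; nlinarith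
    rw [c1, c2]
    omega

end Pool.Agent.Helper190.EdgeLin
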